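import Mathlib

/-!
Reductions, p-invertibility, p-isomorphism, and the classes P and PSPACE.
-/

namespace Pool.Agent.Work.MP_88f784_lc

/-- A function on binary words is computable in deterministic polynomial time
(multi-stack Turing machines of Mathlib). -/
def PolyTime (f : List Bool → List Bool) : Prop :=
  Nonempty (Turing.TM2ComputableInPolyTime (fun x : List Bool => x) (fun x : List Bool => x) f)

/-- `f` is a polynomial-time reduction of `A` to `B`. -/
def Reduction (f : List Bool → List Bool) (A B : Set (List Bool)) : Prop :=
  PolyTime f ∧ ∀ x, x ∈ A ↔ f x ∈ B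

/-- `f` never decreases the length. -/
def LengthNondecreasing (f : List Bool → List Bool) : Prop := ∀ x, x.length ≤ (f x).length

/-- `f` is injective and some polynomial-time algorithm, given `y`, decides whether `y` is in the
range of `f` and, if so, outputs the preimage: its answer is `1x` if `y = f x`, and the empty word
if `y` is not in the range. -/
def PInvertible (f : List Bool → List Bool) : Prop :=
  Function.Injective f ∧ ∃ g : List Bool → List Bool, PolyTime g ∧
    (∀ x, g (f x) = true :: x) ∧ ∀ y, y ∉ Set.range f → g y = []

/-- `A` and `B` are equivalent via reductions that are 1-1, length nondecreasing and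
p-invertible. -/
def LNEquivalent (A B : Set (List Bool)) : Prop :=
  ∃ f g : List Bool → List Bool,
    (Reduction f A B ∧ LengthNondecreasing f ∧ PInvertible f) ∧
    (Reduction g B A ∧ LengthNondecreasing g ∧ PInvertible g)

/-- `A` and `B` are p-isomorphic: `h` is a bijection with inverse `k`, both polynomial-time
computable, and `x ∈ A ↔ h x ∈ B`. -/
def PIsomorphic (A B : Set (List Bool)) : Prop :=
  ∃ h k : List Bool → List Bool, PolyTime h ∧ PolyTime k ∧ (∀ x, k (h x) = x) ∧
    (∀ y, h (k y) = y) ∧ ∀ x, x ∈ A ↔ h x ∈ B

/-- The class P. -/
def InP (L : Set (List Bool)) : Prop :=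
  ∃ d : List Bool → List Bool, PolyTime d ∧ ∀ x, x ∈ L ↔ d x = [true]

/-- The space used by a configuration: the total number of symbols on its stacks. -/
def space (M : Turing.FinTM2) (c : M.Cfg) : ℕ :=
  @Finset.sum M.K ℕ _ (@Finset.univ M.K M.kFin) (fun k => (c.stk k).length)

/-- The class PSPACE: some machine halts on every input `x` with the one-symbol output telling
whether `x ∈ L`, and the space used by the configurations of its run is bounded by a
polynomial. -/
def InPSPACE (L : Set (List Bool)) : Prop :=
  ∃ (T : Turing.TM2ComputableAux Bool Bool) (p : Polynomial ℕ), ∀ x : List Bool,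
    (∃ b : Bool, (x ∈ L ↔ b = true) ∧
      Nonempty (Turing.TM2Outputs T.tm (x.map T.inputAlphabet.invFun)
        (some [T.outputAlphabet.invFun b]))) ∧
    ∀ (n : ℕ) (c : T.tm.Cfg),
      (flip bind T.tm.step)^[n] (some (Turing.initList T.tm (x.map T.inputAlphabet.invFun))) =
        some c → space T.tm c ≤ p.eval x.length

end Pool.Agent.Work.MP_88f784_lc
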