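import Mathlib
import Pool.Agent.Work.MP_0532f7_lc.Compile
import Pool.Agent.Work.MP_88f784_lc.Defs

/-!
Space-bounded runs of stack programs, and their compilation to machines.
-/

namespace Pool.Agent.Work.MP_88f784_lc

open Pool.Agent.Work.MP_0532f7_lc Polynomial Turing Turing.TM2

/-- runs in which the store satisfies `W` at every loop head -/
inductive RunB (W : Store → Prop) : Prog → Store → Store → Prop
  | skip (s : Store) : RunB W .skip s s
  | push (r : ℕ) (b : Bool) (s : Store) : RunB W (.push r b) s (upd s r (b :: s r))
  | pop (r : ℕ) (s : Store) : RunB W (.pop r) s (upd s r (s r).tail)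
  | seq {p q : Prog} {s s1 s2 : Store} :
      RunB W p s s1 → RunB W q s1 s2 → RunB W (.seq p q) s s2
  | condN {r : ℕ} {a b c : Prog} {s s' : Store} :
      (s r).head? = none → RunB W a s s' → RunB W (.cond r a b c) s s'
  | condF {r : ℕ} {a b c : Prog} {s s' : Store} :
      (s r).head? = some false → RunB W b s s' → RunB W (.cond r a b c) s s'
  | condT {r : ℕ} {a b c : Prog} {s s' : Store} :
      (s r).head? = some true → RunB W c s s' → RunB W (.cond r a b c) s s'
  | loopN {r : ℕ} {p : Prog} {s : Store} : W s → (s r).head? = none → RunB W (.loop r p) s s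
  | loopS {r : ℕ} {p : Prog} {s s1 s2 : Store} : W s →
      (s r).head? ≠ none → RunB W p s s1 → RunB W (.loop r p) s1 s2 →
      RunB W (.loop r p) s s2

/-- a run of cost `n` only visits stores at most `n` longer -/
theorem RunB.of_run {W : Store → Prop} {p : Prog} {s s' : Store} {n : ℕ} (h : Run p s s' n) :
    (∀ t : Store, (∀ r, (t r).length ≤ (s r).length + n) → W t) → RunB W p s s' := by
  induction h with
  | skip s => intro _; exact RunB.skip s
  | push r b s => intro _; exact RunB.push r b s
  | pop r s => intro _; exact RunB.pop r s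
  | seq h1 h2 ih1 ih2 =>
    intro hW
    refine RunB.seq (ih1 (fun t ht => hW t (fun r => ?_))) (ih2 (fun t ht => hW t (fun r => ?_)))
    · have := ht r; omega
    · have h3 := ht r
      have h4 := h1.length_le r
      omega
  | condN h1 _ ih =>
    intro hW; exact RunB.condN h1 (ih (fun t ht => hW t (fun r => by have := ht r; omega)))
  | condF h1 _ ih =>
    intro hW; exact RunB.condF h1 (ih (fun t ht => hW t (fun r => by have := ht r; omega)))
  | condT h1 _ ih =>
    intro hW; exact RunB.condT h1 (ih (fun t ht => hW t (fun r => by have := ht r; omega)))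
  | loopN h1 => intro hW; exact RunB.loopN (hW _ (fun r => by omega)) h1
  | loopS h1 h2 h3 ih1 ih2 =>
    intro hW
    refine RunB.loopS (hW _ (fun r => by omega)) h1
      (ih1 (fun t ht => hW t (fun r => ?_))) (ih2 (fun t ht => hW t (fun r => ?_)))
    · have := ht r; omega
    · have h4 := ht r
      have h5 := h2.length_le r
      omega

theorem RunB.of_runLe {W : Store → Prop} {p : Prog} {s s' : Store} {n : ℕ} (h : RunLe p s s' n)
    (hW : ∀ t : Store, (∀ r, (t r).length ≤ (s r).length + n) → W t) : RunB W p s s' := by
  obtain ⟨m, hm, hr⟩ := h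
  exact RunB.of_run hr (fun t ht => hW t (fun r => by have := ht r; omega))

section

variable (N : ℕ) {Λ : Type} (M : Λ → St N Λ)

/-- `m` steps, all configurations before the last satisfying `G` -/
def StepsG (G : (∀ _ : Fin (N + 1), List Bool) → Prop)
    (c c' : TM2.Cfg (fun _ : Fin (N + 1) => Bool) Λ (Option Bool)) (m : ℕ) : Prop :=
  Steps N M c c' m ∧ ∀ j, j < m → ∀ d,
    (flip bind (TM2.step M))^[j] (some c) = some d → G d.stk

theorem StepsG.refl (G : (∀ _ : Fin (N + 1), List Bool) → Prop)
    (c : TM2.Cfg (fun _ : Fin (N + 1) => Bool) Λ (Option Bool)) : StepsG N M G c c 0 :=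
  ⟨rfl, fun j hj => absurd hj (by omega)⟩

theorem StepsG.trans {G : (∀ _ : Fin (N + 1), List Bool) → Prop}
    {a b c : TM2.Cfg (fun _ : Fin (N + 1) => Bool) Λ (Option Bool)} {n m : ℕ}
    (h1 : StepsG N M G a b n) (h2 : StepsG N M G b c m) : StepsG N M G a c (n + m) := by
  refine ⟨h1.1.trans N M h2.1, fun j hj d hd => ?_⟩
  rcases Nat.lt_or_ge j n with h | h
  · exact h1.2 j h d hd
  · obtain ⟨i, rfl⟩ : ∃ i, j = i + n := ⟨j - n, by omega⟩
    rw [Function.iterate_add_apply, show (flip bind (TM2.step M))^[n] (some a) = some b from h1.1]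
      at hd
    exact h2.2 i (by omega) d hd

theorem StepsG.one {G : (∀ _ : Fin (N + 1), List Bool) → Prop} (l : Λ) (v : Option Bool)
    (S : ∀ _ : Fin (N + 1), List Bool) (h : G S) :
    StepsG N M G ⟨some l, v, S⟩ (TM2.stepAux (M l) v S) 1 := by
  refine ⟨Steps.one N M l v S, fun j hj d hd => ?_⟩
  have : j = 0 := by omega
  subst this
  simp only [Function.iterate_zero, id_eq, Option.some.injEq] at hd
  rw [← hd]; exact h

theorem cmp_runB {W : Store → Prop} {p : Prog} {s s' : Store} (h : RunB W p s s') :
    ∀ (hp : p.bd (N + 1)) (e : Lab p → Λ) (k : St N Λ) (_ : ∀ l, M (e l) = bod N p e k l)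
      (v : Option Bool), ∃ m, ∃ v', StepsG N M (fun S => ∃ t, W t ∧ S = stk N t)
        (TM2.stepAux (cmp N p e k) v (stk N s))
        (TM2.stepAux k v' (stk N s')) m := by
  induction h with
  | skip s =>
    intro hp e k hM v
    exact ⟨0, v, StepsG.refl N M _ _⟩
  | push r b s =>
    intro hp e k hM v
    refine ⟨0, v, ?_⟩
    have hr : r < N + 1 := hp
    have : TM2.stepAux (cmp N (.push r b) e k) v (stk N s) =
        TM2.stepAux k v (stk N (upd s r (b :: s r))) := by
      simp only [MP_0532f7_lc.cmp, TM2.stepAux]
      rw [stk_reg N hr, update_stk N hr]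
    rw [this]; exact StepsG.refl N M _ _
  | pop r s =>
    intro hp e k hM v
    refine ⟨0, v, ?_⟩
    have hr : r < N + 1 := hp
    have : TM2.stepAux (cmp N (.pop r) e k) v (stk N s) =
        TM2.stepAux k v (stk N (upd s r (s r).tail)) := by
      simp only [MP_0532f7_lc.cmp, TM2.stepAux]
      rw [stk_reg N hr, update_stk N hr]
    rw [this]; exact StepsG.refl N M _ _
  | @seq p q s s1 s2 _ _ ih1 ih2 =>
    intro hp e k hM v
    obtain ⟨m1, v1, h1⟩ := ih1 hp.1 (fun l => e (Sum.inl l))
      (cmp N q (fun l => e (Sum.inr l)) k) (fun l => by rw [hM (Sum.inl l)]; rfl) v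
    obtain ⟨m2, v2, h2⟩ := ih2 hp.2 (fun l => e (Sum.inr l)) k
      (fun l => by rw [hM (Sum.inr l)]; rfl) v1
    exact ⟨m1 + m2, v2, h1.trans N M h2⟩
  | @condN r a b c s s' h1 _ ih =>
    intro hp e k hM v
    obtain ⟨m1, v1, h2⟩ := ih hp.2.1 (fun l => e (Sum.inl l)) k
      (fun l => by rw [hM (Sum.inl l)]; rfl) (s r).head?
    refine ⟨m1, v1, ?_⟩
    have : TM2.stepAux (cmp N (.cond r a b c) e k) v (stk N s) =
        TM2.stepAux (cmp N a (fun l => e (Sum.inl l)) k) (s r).head? (stk N s) := by
      simp only [MP_0532f7_lc.cmp, TM2.stepAux]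
      rw [stk_reg N hp.1, h1]; rfl
    rw [this]; exact h2
  | @condF r a b c s s' h1 _ ih =>
    intro hp e k hM v
    obtain ⟨m1, v1, h2⟩ := ih hp.2.2.1 (fun l => e (Sum.inr (Sum.inl l))) k
      (fun l => by rw [hM (Sum.inr (Sum.inl l))]; rfl) (s r).head?
    refine ⟨m1, v1, ?_⟩
    have : TM2.stepAux (cmp N (.cond r a b c) e k) v (stk N s) =
        TM2.stepAux (cmp N b (fun l => e (Sum.inr (Sum.inl l))) k) (s r).head? (stk N s) := by
      simp only [MP_0532f7_lc.cmp, TM2.stepAux]
      rw [stk_reg N hp.1, h1]; rfl
    rw [this]; exact h2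
  | @condT r a b c s s' h1 _ ih =>
    intro hp e k hM v
    obtain ⟨m1, v1, h2⟩ := ih hp.2.2.2 (fun l => e (Sum.inr (Sum.inr l))) k
      (fun l => by rw [hM (Sum.inr (Sum.inr l))]; rfl) (s r).head?
    refine ⟨m1, v1, ?_⟩
    have : TM2.stepAux (cmp N (.cond r a b c) e k) v (stk N s) =
        TM2.stepAux (cmp N c (fun l => e (Sum.inr (Sum.inr l))) k) (s r).head? (stk N s) := by
      simp only [MP_0532f7_lc.cmp, TM2.stepAux]
      rw [stk_reg N hp.1, h1]; rfl
    rw [this]; exact h2
  | @loopN r p s hW h1 =>
    intro hp e k hM v
    refine ⟨1, (s r).head?, ?_⟩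
    have e1 : TM2.stepAux (cmp N (.loop r p) e k) v (stk N s) = ⟨some (e none), v, stk N s⟩ := rfl
    rw [e1]
    have h2 := StepsG.one N M (G := fun S => ∃ t, W t ∧ S = stk N t) (e none) v (stk N s)
      ⟨s, hW, rfl⟩
    have e2 : TM2.stepAux (M (e none)) v (stk N s) = TM2.stepAux k (s r).head? (stk N s) := by
      rw [hM none]
      simp only [bod, TM2.stepAux]
      rw [stk_reg N hp.1, h1]; rfl
    rwa [e2] at h2
  | @loopS r p s s1 s2 hW h1 _ _ ih1 ih2 =>
    intro hp e k hM v
    obtain ⟨m1, v1, h2⟩ := ih1 hp.2 (fun l => e (some l)) (.goto (fun _ => e none))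
      (fun l => by rw [hM (some l)]; rfl) (s r).head?
    obtain ⟨m2, v2, h3⟩ := ih2 hp e k hM v1
    refine ⟨1 + (m1 + m2), v2, ?_⟩
    have e1 : TM2.stepAux (cmp N (.loop r p) e k) v (stk N s) = ⟨some (e none), v, stk N s⟩ := rfl
    rw [e1]
    have h4 := StepsG.one N M (G := fun S => ∃ t, W t ∧ S = stk N t) (e none) v (stk N s)
      ⟨s, hW, rfl⟩
    have e2 : TM2.stepAux (M (e none)) v (stk N s) =
        TM2.stepAux (cmp N p (fun l => e (some l)) (.goto (fun _ => e none))) (s r).head?
          (stk N s) := by
      rw [hM none]
      simp only [bod, TM2.stepAux]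
      rw [stk_reg N hp.1]
      cases hh : (s r).head? with
      | none => exact absurd hh h1
      | some b => rfl
    rw [e2] at h4
    exact h4.trans N M (h2.trans N M h3)

end

/-- languages decided by space-bounded programs are in PSPACE -/
theorem inPSPACE_of_runB {L : Set (List Bool)} (p : Prog) (P : Polynomial ℕ)
    (h : ∀ x : List Bool, ∃ b : Bool, (x ∈ L ↔ b = true) ∧
      RunB (fun t => ∀ r, (t r).length ≤ P.eval x.length) p (inp x) (inp [b])) :
    InPSPACE L := by
  obtain ⟨N, hN⟩ := p.exists_bd
  have hN1 : p.bd (N + 1) := Prog.bd_mono (Nat.le_succ N) hN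
  refine ⟨{ tm := machine N p, inputAlphabet := Equiv.refl Bool, outputAlphabet := Equiv.refl Bool },
    C (N + 1) * (P + X + 1), fun x => ?_⟩
  obtain ⟨b, hb, hrun⟩ := h x
  obtain ⟨m, v', h1⟩ := cmp_runB N (machine N p).m hrun hN1 some
      (.load (fun _ => none) .halt) (fun l => rfl) none
  have e1 : initList (machine N p) x = ⟨some none, none, stk N (inp x)⟩ := by
    unfold initList
    congr 1
    funext k
    change (if h : k = (0 : Fin (N + 1)) then _ else _) = _
    split_ifs with hk
    · subst hk; rfl
    · have : k.val ≠ 0 := fun h => hk (Fin.ext h)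
      simp [stk, inp, upd, this]
      rfl
  have e2 : haltList (machine N p) [b] = ⟨none, none, stk N (inp [b])⟩ := by
    unfold haltList
    congr 1
    funext k
    change (if h : k = (0 : Fin (N + 1)) then _ else _) = _
    split_ifs with hk
    · subst hk; rfl
    · have : k.val ≠ 0 := fun h => hk (Fin.ext h)
      simp [stk, inp, upd, this]
      rfl
  have h2 : (flip bind (machine N p).step)^[1 + m] (some (initList (machine N p) x)) =
      some (haltList (machine N p) [b]) := by
    have h0 := Steps.one N (machine N p).m none none (stk N (inp x))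
    have h3 := h0.trans N _ h1.1
    rw [e1, e2]
    exact h3
  have hstep1 : (flip bind (machine N p).step) (some (initList (machine N p) x)) =
      some (TM2.stepAux (cmp N p some (.load (fun _ => none) .halt)) none (stk N (inp x))) := by
    rw [e1]
    exact Steps.one N (machine N p).m none none (stk N (inp x))
  refine ⟨⟨b, hb, ⟨⟨1 + m, ?_⟩⟩⟩, ?_⟩
  · have goal : ∀ (x' : List ((machine N p).Γ (machine N p).k₀))
        (y : List ((machine N p).Γ (machine N p).k₁)), x' = x → y = [b] →
        (flip bind (machine N p).step)^[1 + m] (some (initList (machine N p) x')) =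
          Option.map (haltList (machine N p)) (some y) := by
      intro x' y hx hy
      subst hx; subst hy
      exact h2
    exact goal _ _ (List.map_id x) rfl
  · have goal : ∀ (x' : List ((machine N p).Γ (machine N p).k₀)), x' = x → ∀ (n : ℕ)
        (c : (machine N p).Cfg),
        (flip bind (machine N p).step)^[n] (some (initList (machine N p) x')) = some c →
        space (machine N p) c ≤ (C (N + 1) * (P + X + 1)).eval x.length := by
      intro x' hx n c hc
      rw [hx] at hc
      clear hx x'
      have bound : ∀ (c : (machine N p).Cfg), (∀ k : Fin (N + 1), (c.stk k).length ≤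
          P.eval x.length + x.length + 1) →
          space (machine N p) c ≤ (C (N + 1) * (P + X + 1)).eval x.length := by
        intro c hc
        unfold space
        have : @Finset.sum (Fin (N + 1)) ℕ _ Finset.univ (fun k => (c.stk k).length) ≤
            ∑ _ : Fin (N + 1), (P.eval x.length + x.length + 1) :=
          Finset.sum_le_sum (fun k _ => hc k)
        rw [Finset.sum_const, Finset.card_univ, Fintype.card_fin, smul_eq_mul] at this
        simp only [eval_mul, eval_C, eval_add, eval_X, eval_one]
        exact this
      cases n with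
      | zero =>
        simp only [Function.iterate_zero, id_eq, Option.some.injEq] at hc
        rw [← hc, e1]
        apply bound
        intro k
        show (stk N (inp x) k).length ≤ _
        simp only [stk, inp, upd]
        split_ifs
        · omega
        · simp
      | succ n =>
        rw [Function.iterate_succ_apply, hstep1] at hc
        rcases Nat.lt_or_ge n m with hlt | hge
        · obtain ⟨t, ht, hs⟩ := h1.2 n hlt c hc
          apply bound
          intro k
          rw [hs]
          have := ht k.val
          show (t k.val).length ≤ _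
          omega
        · obtain ⟨d, rfl⟩ : ∃ d, n = d + m := ⟨n - m, by omega⟩
          have h3 : (flip bind (machine N p).step)^[m] (some (TM2.stepAux (cmp N p some
              (.load (fun _ => none) .halt)) none (stk N (inp x)))) =
              some (⟨none, none, stk N (inp [b])⟩ : (machine N p).Cfg) := h1.1
          rw [Function.iterate_add_apply] at hc
          have hc2 : (flip bind (machine N p).step)^[d]
              (some (⟨none, none, stk N (inp [b])⟩ : (machine N p).Cfg)) = some c :=
            (congrArg (fun o => (flip bind (machine N p).step)^[d] o) h3).symm.trans hc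
          clear hc
          rename' hc2 => hc
          cases d with
          | zero =>
            simp only [Function.iterate_zero, id_eq, Option.some.injEq] at hc
            rw [← hc]
            apply bound
            intro k
            show (stk N (inp [b]) k).length ≤ _
            simp only [stk, inp, upd]
            split_ifs <;> simp
          | succ d =>
            exfalso
            rw [Function.iterate_succ_apply] at hc
            change (flip bind (machine N p).step)^[d] (none : Option (machine N p).Cfg) = some c
              at hc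
            have e3 : ∀ k, (flip bind (machine N p).step)^[k] (none : Option (machine N p).Cfg) =
                none := by
              intro k
              induction k with
              | zero => rfl
              | succ k ihk => rw [Function.iterate_succ_apply]; exact ihk
            rw [e3] at hc
            exact absurd hc (by simp)
    exact goal _ (List.map_id x)

end Pool.Agent.Work.MP_88f784_lc
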