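import Mathlib
import Pool.Agent.Work.MP_0532f7_lc.Clock

/-!
Word functions: the growing map `t`, its inverse, roots.
-/

namespace Pool.Agent.Work.MP_88f784_lc

open Pool.Agent.Work.MP_0532f7_lc Polynomial

/-- zeros of the same length -/
def zs (x : List Bool) : List Bool := List.replicate x.length false

@[simp] theorem zs_length (x : List Bool) : (zs x).length = x.length := by simp [zs]

theorem zs_congr {x y : List Bool} (h : x.length = y.length) : zs x = zs y := by
  unfold zs; rw [h]

theorem zs_eq_iff (x y : List Bool) : zs x = zs y ↔ x.length = y.length :=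
  ⟨fun h => by simpa using congrArg List.length h, zs_congr⟩

theorem FP.zs {f : List Bool → List Bool} (hf : FP f) : FP (fun x => zs (f x)) := by
  obtain ⟨Q, hQ⟩ := hf.length
  have key : ∀ i, (fun z : List Bool => false :: z)^[i] [] = List.replicate i false := by
    intro i
    induction i with
    | zero => rfl
    | succ i ih => rw [Function.iterate_succ_apply', ih, List.replicate_succ]
  refine (FP.iter (FP.cons false) hf FP.nil Q (fun x i hi => ?_)).congr (fun x => ?_)
  · rw [key, List.length_replicate]; exact hi.trans (hQ x)
  · rw [key]; rfl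

/-- equality of lengths -/
def lenEq (x y : List Bool) : Bool := decide (zs x = zs y)

theorem lenEq_iff (x y : List Bool) : lenEq x y = true ↔ x.length = y.length := by
  unfold lenEq; rw [decide_eq_true_eq, zs_eq_iff]

theorem FPb.lenEq {f g : List Bool → List Bool} (hf : FP f) (hg : FP g) :
    FPb (fun x => lenEq (f x) (g x)) := FPb.eq (FP.zs hf) (FP.zs hg)

/-- the head is `1` -/
def ty (x : List Bool) : Bool := x.head?.getD false

@[simp] theorem ty_true (x : List Bool) : ty (true :: x) = true := rfl
@[simp] theorem ty_false (x : List Bool) : ty (false :: x) = false := rfl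

theorem FPb.ty {f : List Bool → List Bool} (hf : FP f) : FPb (fun x => ty (f x)) :=
  FPb.hd.comp hf

/-- the growing map -/
def t (y : List Bool) : List Bool :=
  true :: pr y (List.replicate (y.length * y.length) false)

theorem FP.t : FP t := by
  obtain ⟨h, hh, hl⟩ := FP.mulLen FP.id FP.id
  refine ((FP.cons true).comp (FP.pair FP.id (FP.zs hh))).congr (fun x => ?_)
  unfold MP_88f784_lc.t MP_88f784_lc.zs
  rw [hl]

theorem t_length (y : List Bool) : (t y).length = 2 * y.length + 2 + y.length * y.length := by
  unfold t
  rw [List.length_cons, pr_length, List.length_replicate]; omega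

theorem lt_t (y : List Bool) : y.length < (t y).length := by rw [t_length]; nlinarith

@[simp] theorem ty_t (y : List Bool) : ty (t y) = true := rfl

@[simp] theorem fs_tail_t (y : List Bool) : fs (t y).tail = y := by
  unfold t; rw [List.tail_cons, fs_pr]

theorem t_inj {x y : List Bool} (h : t x = t y) : x = y := by
  rw [← fs_tail_t x, h, fs_tail_t]

/-- inverse of `t` (the identity outside the range of `t`) -/
def ut (z : List Bool) : List Bool :=
  if decide (t (fs z.tail) = z) = true then fs z.tail else z

theorem FP.ut : FP ut := by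
  have h : FP (fun z : List Bool => fs z.tail) := FP.fsI.comp FP.tail
  exact FP.ite (FPb.eq (FP.t.comp h) FP.id) h FP.id

@[simp] theorem ut_t (y : List Bool) : ut (t y) = y := by
  unfold ut; rw [fs_tail_t]; simp

theorem ut_cases (z : List Bool) : (∃ y, z = t y) ∨ ((∀ y, z ≠ t y) ∧ ut z = z) := by
  by_cases h : t (fs z.tail) = z
  · exact Or.inl ⟨_, h.symm⟩
  · refine Or.inr ⟨fun y hy => h (by rw [hy, fs_tail_t]), ?_⟩
    unfold ut; rw [if_neg]; simpa using h

theorem ut_of_ty {z : List Bool} (h : ty z = false) : ut z = z := by
  rcases ut_cases z with ⟨y, rfl⟩ | ⟨_, h2⟩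
  · simp at h
  · exact h2

theorem ut_length (z : List Bool) : (ut z).length ≤ z.length := by
  rcases ut_cases z with ⟨y, rfl⟩ | ⟨_, h⟩
  · rw [ut_t]; exact (lt_t y).le
  · rw [h]

theorem ut_iter_length (n : ℕ) (z : List Bool) : (ut^[n] z).length ≤ z.length := by
  induction n generalizing z with
  | zero => exact le_rfl
  | succ n ih => rw [Function.iterate_succ_apply]; exact (ih _).trans (ut_length z)

/-- the root of a word -/
def root (z : List Bool) : List Bool := ut^[z.length] z

theorem FP.root : FP root :=
  FP.iter FP.ut FP.id FP.id X (fun x i _ => by rw [eval_X]; exact ut_iter_length i x)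

theorem ut_fix {z : List Bool} (h : ut z = z) (n : ℕ) : ut^[n] z = z := by
  induction n with
  | zero => rfl
  | succ n ih => rw [Function.iterate_succ_apply, h, ih]

theorem ut_stab : ∀ (m : ℕ) (z : List Bool), z.length ≤ m → ∀ n, z.length ≤ n →
    ut^[n] z = root z := by
  intro m
  induction m with
  | zero =>
    intro z hz n _
    have hz0 : z = [] := List.length_eq_zero_iff.mp (by omega)
    subst hz0
    have h : ut [] = [] := ut_of_ty rfl
    rw [ut_fix h]; rfl
  | succ m ih =>
    intro z hz n hn
    rcases ut_cases z with ⟨y, rfl⟩ | ⟨_, h⟩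
    · have h1 := lt_t y
      obtain ⟨n', rfl⟩ : ∃ n', n = n' + 1 := ⟨n - 1, by omega⟩
      obtain ⟨l, hl⟩ : ∃ l, (t y).length = l + 1 := ⟨(t y).length - 1, by omega⟩
      rw [Function.iterate_succ_apply, ut_t]
      unfold root
      rw [hl, Function.iterate_succ_apply, ut_t, ih y (by omega) n' (by omega),
        ih y (by omega) l (by omega)]
    · rw [ut_fix h, root, ut_fix h]

theorem root_t (y : List Bool) : root (t y) = root y := by
  have h1 := lt_t y
  obtain ⟨l, hl⟩ : ∃ l, (t y).length = l + 1 := ⟨(t y).length - 1, by omega⟩
  unfold root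
  rw [hl, Function.iterate_succ_apply, ut_t]
  exact ut_stab y.length y le_rfl l (by omega)

theorem root_of_ty {z : List Bool} (h : ty z = false) : root z = z := ut_fix (ut_of_ty h) _

theorem root_iter (j : ℕ) (y : List Bool) : root (t^[j] y) = root y := by
  induction j with
  | zero => rfl
  | succ j ih => rw [Function.iterate_succ_apply', root_t, ih]

theorem iter_t_inj {y : List Bool} (hy : ty y = false) {i j : ℕ} (h : t^[i] y = t^[j] y) :
    i = j := by
  have hlen : ∀ i, y.length + i ≤ (t^[i] y).length := by
    intro i
    induction i with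
    | zero => simp
    | succ i ih => rw [Function.iterate_succ_apply']; have := lt_t (t^[i] y); omega
  have mono : ∀ i k, (t^[i] y).length + k ≤ (t^[i + k] y).length := by
    intro i k
    induction k with
    | zero => simp
    | succ k ih =>
      have e : t^[i + (k + 1)] y = t (t^[i + k] y) := Function.iterate_succ_apply' t (i + k) y
      rw [e]
      have := lt_t (t^[i + k] y); omega
  rcases lt_trichotomy i j with h1 | h1 | h1
  · obtain ⟨k, rfl⟩ : ∃ k, j = i + k := ⟨j - i, by omega⟩
    have := mono i k
    rw [← h] at this; omega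
  · exact h1
  · obtain ⟨k, rfl⟩ : ∃ k, i = j + k := ⟨i - j, by omega⟩
    have := mono j k
    rw [h] at this; omega

end Pool.Agent.Work.MP_88f784_lc
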