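import Mathlib
import Pool.Agent.Work.MP_88f784_lc.Base

/-!
Exclusive or of words, binary counters, and the selection of registers.
-/

namespace Pool.Agent.Work.MP_88f784_lc

open Pool.Agent.Work.MP_0532f7_lc Polynomial

/-! ### exclusive or -/

/-- bitwise exclusive or, of the length of the first word -/
def xr : List Bool → List Bool → List Bool
  | [], _ => []
  | a :: u, v => Bool.xor a (v.head?.getD false) :: xr u v.tail

@[simp] theorem xr_length (u v : List Bool) : (xr u v).length = u.length := by
  induction u generalizing v with
  | nil => rfl
  | cons a u ih => simp [xr, ih]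

theorem xr_xr (u v : List Bool) : xr (xr u v) v = u := by
  induction u generalizing v with
  | nil => rfl
  | cons a u ih => simp [xr, ih]

theorem xr_zs (v : List Bool) : xr (List.replicate v.length false) v = v := by
  induction v with
  | nil => rfl
  | cons b v ih => simp [xr, List.replicate_succ, ih]

theorem xr_self (v : List Bool) : xr v v = List.replicate v.length false := by
  induction v with
  | nil => rfl
  | cons b v ih => simp [xr, List.replicate_succ, ih]

/-- step of the computation of `xr` -/
def xst (z : List Bool) : List Bool :=
  if (fs z).isEmpty = true then z else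
  pr (fs z).tail (pr (fs (sn z)).tail
    ((if (fs z).head?.getD false = true then !(fs (sn z)).head?.getD false
      else (fs (sn z)).head?.getD false) :: sn (sn z)))

theorem FP.xst : FP xst := by
  have h1 : FP (fun z => fs (sn z)) := FP.fsI.comp FP.snI
  have h2 : FP (fun z => sn (sn z)) := FP.snI.comp FP.snI
  exact FP.ite (FPb.isNil.comp FP.fsI) FP.id (FP.pair (FP.tail.comp FP.fsI)
    (FP.pair (FP.tail.comp h1)
      (FP.consb (FPb.ite (FPb.hd.comp FP.fsI) (FPb.hd.comp h1).not (FPb.hd.comp h1)) h2)))

theorem xst_pr (a : Bool) (u v w : List Bool) : xst (pr (a :: u) (pr v w)) =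
    pr u (pr v.tail (Bool.xor a (v.head?.getD false) :: w)) := by
  unfold xst
  simp only [fs_pr, sn_pr, List.isEmpty_cons, Bool.false_eq_true, if_false, List.tail_cons,
    List.head?_cons, Option.getD_some]
  cases a <;> simp

theorem xst_iter (u : List Bool) : ∀ v w : List Bool, xst^[u.length] (pr u (pr v w)) =
    pr [] (pr (v.drop u.length) ((xr u v).reverse ++ w)) := by
  induction u with
  | nil => intro v w; simp [xr]
  | cons a u ih =>
    intro v w
    rw [List.length_cons, Function.iterate_succ_apply, xst_pr, ih]
    simp [xr]

theorem xst_bound (i : ℕ) : ∀ u v w : List Bool,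
    (xst^[i] (pr u (pr v w))).length ≤ (pr u (pr v w)).length := by
  induction i with
  | zero => intro u v w; exact le_rfl
  | succ i ih =>
    intro u v w
    rw [Function.iterate_succ_apply]
    cases u with
    | nil =>
      have : xst (pr [] (pr v w)) = pr [] (pr v w) := by unfold xst; simp
      rw [this]; exact ih _ _ _
    | cons a u =>
      rw [xst_pr]
      refine (ih _ _ _).trans ?_
      simp only [pr_length, List.length_cons, List.length_tail]
      omega

theorem FP.xr {f g : List Bool → List Bool} (hf : FP f) (hg : FP g) :
    FP (fun x => xr (f x) (g x)) := by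
  have h0 : FP (fun x => pr (f x) (pr (g x) [])) := hf.pair (hg.pair FP.nil)
  obtain ⟨Q, hQ⟩ := h0.length
  have h1 := FP.iter FP.xst hf h0 Q (fun x i _ => (xst_bound i _ _ _).trans (hQ x))
  refine (FP.rev h1.snd.snd).congr (fun x => ?_)
  rw [xst_iter, sn_pr, sn_pr, List.append_nil, List.reverse_reverse]

/-! ### counters -/

/-- little-endian increment (`b = true`) and decrement (`b = false`) of fixed length -/
def adv (b : Bool) : List Bool → List Bool
  | [] => []
  | c :: l => if c = b then (!b) :: adv b l else b :: l

@[simp] theorem adv_length (b : Bool) (l : List Bool) : (adv b l).length = l.length := by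
  induction l with
  | nil => rfl
  | cons c l ih => unfold adv; split_ifs <;> simp [ih]

theorem adv_adv (b : Bool) (l : List Bool) (h : l ≠ List.replicate l.length b) :
    adv (!b) (adv b l) = l := by
  induction l with
  | nil => simp at h
  | cons c l ih =>
    by_cases hc : c = b
    · subst hc
      have h' : l ≠ List.replicate l.length c := by
        intro h'
        apply h
        rw [List.length_cons, List.replicate_succ, ← h']
      have e1 : adv c (c :: l) = (!c) :: adv c l := by simp [adv]
      have e2 : adv (!c) ((!c) :: adv c l) = (!!c) :: adv (!c) (adv c l) := by simp [adv]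
      rw [e1, e2, ih h', Bool.not_not]
    · have e1 : adv b (c :: l) = b :: l := by simp [adv, hc]
      have e2 : adv (!b) (b :: l) = (!b) :: l := by cases b <;> simp [adv]
      have e3 : c = !b := by cases b <;> cases c <;> simp_all
      rw [e1, e2, e3]

theorem adv_ne (b : Bool) (l : List Bool) (h : l ≠ List.replicate l.length b) :
    adv b l ≠ List.replicate l.length (!b) := by
  induction l with
  | nil => simp at h
  | cons c l ih =>
    by_cases hc : c = b
    · subst hc
      have h' : l ≠ List.replicate l.length c := by
        intro h'
        apply h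
        rw [List.length_cons, List.replicate_succ, ← h']
      have e1 : adv c (c :: l) = (!c) :: adv c l := by simp [adv]
      rw [e1, List.length_cons, List.replicate_succ]
      intro h2
      exact ih h' (List.cons.inj h2).2
    · have e1 : adv b (c :: l) = b :: l := by simp [adv, hc]
      rw [e1, List.length_cons, List.replicate_succ]
      intro h2
      have := (List.cons.inj h2).1
      cases b <;> simp at this

theorem adv_rep (b : Bool) (j : ℕ) (l : List Bool) :
    adv b (List.replicate j b ++ (!b) :: l) = List.replicate j (!b) ++ b :: l := by
  induction j with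
  | zero =>
    simp only [List.replicate_zero, List.nil_append]
    cases b <;> simp [adv]
  | succ j ih =>
    rw [List.replicate_succ, List.cons_append, List.replicate_succ, List.cons_append, ← ih]
    simp [adv]

/-- step of the computation of `adv` -/
def ast (b : Bool) (z : List Bool) : List Bool :=
  if (!(sn z).isEmpty && (if b = true then (sn z).head?.getD false
    else !(sn z).head?.getD false)) = true
  then pr ((!b) :: fs z) (sn z).tail else z

theorem FP.ast (b : Bool) : FP (ast b) := by
  have h : FPb (fun z => if b = true then (sn z).head?.getD false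
      else !(sn z).head?.getD false) := by
    cases b
    · exact ((FPb.hd.comp FP.snI).not).congr (fun x => by simp)
    · exact (FPb.hd.comp FP.snI).congr (fun x => by simp)
  exact FP.ite (FPb.and (FPb.isNil.comp FP.snI).not h)
    (FP.pair ((FP.cons (!b)).comp FP.fsI) (FP.tail.comp FP.snI)) FP.id

theorem ast_pr (b : Bool) (u : List Bool) (c : Bool) (l : List Bool) :
    ast b (pr u (c :: l)) = if c = b then pr ((!b) :: u) l else pr u (c :: l) := by
  unfold ast
  rw [fs_pr, sn_pr]
  cases b <;> cases c <;> simp

theorem ast_nil (b : Bool) (u : List Bool) : ast b (pr u []) = pr u [] := by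
  unfold ast
  rw [fs_pr, sn_pr]
  simp

/-- output of the computation of `adv` -/
def aout (b : Bool) (z : List Bool) : List Bool :=
  fs z ++ (if (sn z).isEmpty = true then [] else b :: (sn z).tail)

theorem ast_iter (b : Bool) (l : List Bool) : ∀ (j : ℕ),
    aout b ((ast b)^[l.length] (pr (List.replicate j (!b)) l)) =
      List.replicate j (!b) ++ adv b l := by
  induction l with
  | nil => intro j; simp [aout, adv]
  | cons c l ih =>
    intro j
    rw [List.length_cons, Function.iterate_succ_apply, ast_pr]
    by_cases hc : c = b
    · subst hc
      rw [if_pos rfl, ← List.replicate_succ, ih]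
      have e1 : adv c (c :: l) = (!c) :: adv c l := by simp [adv]
      rw [e1, List.replicate_succ', List.append_assoc]
      rfl
    · rw [if_neg hc]
      have hfix : ∀ n, (ast b)^[n] (pr (List.replicate j (!b)) (c :: l)) =
          pr (List.replicate j (!b)) (c :: l) := by
        intro n
        induction n with
        | zero => rfl
        | succ n ihn => rw [Function.iterate_succ_apply, ast_pr, if_neg hc, ihn]
      rw [hfix]
      have e1 : adv b (c :: l) = b :: l := by simp [adv, hc]
      rw [e1]
      simp [aout]

theorem ast_bound (b : Bool) (i : ℕ) : ∀ u l : List Bool,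
    ((ast b)^[i] (pr u l)).length ≤ (pr u l).length + i := by
  induction i with
  | zero => intro u l; exact le_rfl
  | succ i ih =>
    intro u l
    rw [Function.iterate_succ_apply]
    cases l with
    | nil =>
      rw [ast_nil]; exact (ih _ _).trans (by omega)
    | cons c l =>
      rw [ast_pr]
      split_ifs
      · refine (ih _ _).trans ?_
        simp only [pr_length, List.length_cons]
        omega
      · exact (ih _ _).trans (by omega)

theorem FP.adv {f : List Bool → List Bool} (b : Bool) (hf : FP f) : FP (fun x => adv b (f x)) := by
  have h0 : FP (fun x => pr [] (f x)) := FP.nil.pair hf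
  obtain ⟨Q, hQ⟩ := h0.length
  obtain ⟨R, hR⟩ := hf.length
  have h1 := FP.iter (FP.ast b) hf h0 (Q + R) (fun x i hi => (ast_bound b i _ _).trans (by
    have := hQ x; have := hR x; rw [eval_add]; omega))
  have h2 : FP (aout b) := FP.app FP.fsI (FP.ite (FPb.isNil.comp FP.snI) FP.nil
    ((FP.cons b).comp (FP.tail.comp FP.snI)))
  refine (h2.comp h1).congr (fun x => ?_)
  exact ast_iter b (f x) 0

/-- big-endian increment and decrement of fixed length -/
def radv (b : Bool) (w : List Bool) : List Bool := (adv b w.reverse).reverse

theorem FP.radv {f : List Bool → List Bool} (b : Bool) (hf : FP f) :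
    FP (fun x => radv b (f x)) := (FP.adv b (FP.rev hf)).rev

@[simp] theorem radv_length (b : Bool) (w : List Bool) : (radv b w).length = w.length := by
  simp [radv]

theorem radv_radv (b : Bool) (w : List Bool) (h : w ≠ List.replicate w.length b) :
    radv (!b) (radv b w) = w := by
  unfold radv
  rw [List.reverse_reverse, adv_adv, List.reverse_reverse]
  intro h'
  apply h
  have := congrArg List.reverse h'
  rw [List.reverse_reverse, List.reverse_replicate, List.length_reverse] at this
  exact this

theorem radv_ne (b : Bool) (w : List Bool) (h : w ≠ List.replicate w.length b) :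
    radv b w ≠ List.replicate w.length (!b) := by
  unfold radv
  intro h2
  have h3 := congrArg List.reverse h2
  rw [List.reverse_reverse, List.reverse_replicate, ← List.length_reverse (as := w)] at h3
  refine adv_ne b w.reverse (fun h' => ?_) h3
  apply h
  have := congrArg List.reverse h'
  rw [List.reverse_reverse, List.reverse_replicate, List.length_reverse] at this
  exact this

theorem radv_rep (b : Bool) (u : List Bool) (j : ℕ) :
    radv b (u ++ (!b) :: List.replicate j b) = u ++ b :: List.replicate j (!b) := by
  unfold radv
  have e : (u ++ (!b) :: List.replicate j b).reverse =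
      List.replicate j b ++ (!b) :: u.reverse := by simp
  rw [e, adv_rep]
  simp

/-! ### selection -/

/-- selection of source and target register (as words, of which only the length matters) -/
def sel : List Bool → List Bool → List Bool → List Bool × List Bool
  | p :: q :: w, a, b => if p && q then (b, b) else if q then sel w w b else sel w a w
  | [_], a, b => (a, b)
  | [], a, b => (a, b)

/-- selection of source and target register -/
def selN : List Bool → ℕ → ℕ → ℕ × ℕ
  | p :: q :: w, a, b => if p && q then (b, b) else if q then selN w w.length b
      else selN w a w.length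
  | [_], a, b => (a, b)
  | [], a, b => (a, b)

theorem sel_len (n : ℕ) : ∀ (w a b : List Bool), w.length ≤ n →
    ((sel w a b).1.length, (sel w a b).2.length) = selN w a.length b.length := by
  induction n with
  | zero =>
    intro w a b hw
    have : w = [] := List.length_eq_zero_iff.mp (by omega)
    subst this; rfl
  | succ n ih =>
    intro w a b hw
    match w with
    | [] => rfl
    | [_] => rfl
    | p :: q :: w =>
      simp only [List.length_cons] at hw
      unfold sel selN
      split_ifs
      · rfl
      · exact ih w w b (by omega)
      · exact ih w a w (by omega)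

theorem selN_le (n : ℕ) : ∀ (w : List Bool) (a b m : ℕ), w.length ≤ n → w.length ≤ m → a ≤ m →
    b ≤ m → (selN w a b).1 ≤ m ∧ (selN w a b).2 ≤ m := by
  induction n with
  | zero =>
    intro w a b m hw h1 h2 h3
    have : w = [] := List.length_eq_zero_iff.mp (by omega)
    subst this; exact ⟨h2, h3⟩
  | succ n ih =>
    intro w a b m hw h1 h2 h3
    match w with
    | [] => exact ⟨h2, h3⟩
    | [_] => exact ⟨h2, h3⟩
    | p :: q :: w =>
      simp only [List.length_cons] at hw h1
      unfold selN
      split_ifs
      · exact ⟨h3, h3⟩
      · exact ih w _ _ m (by omega) (by omega) (by omega) h3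
      · exact ih w _ _ m (by omega) (by omega) h2 (by omega)

/-- step of the selection -/
def sst (z : List Bool) : List Bool :=
  if (fs z).tail.isEmpty = true then z else
  if ((fs z).head?.getD false && (fs z).tail.head?.getD false) = true
  then pr [] (pr (sn (sn z)) (sn (sn z)))
  else if (fs z).tail.head?.getD false = true
  then pr (fs z).tail.tail (pr (fs z).tail.tail (sn (sn z)))
  else pr (fs z).tail.tail (pr (fs (sn z)) (fs z).tail.tail)

theorem FP.sst : FP sst := by
  have h1 : FP (fun z => fs (sn z)) := FP.fsI.comp FP.snI
  have h2 : FP (fun z => sn (sn z)) := FP.snI.comp FP.snI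
  have h3 : FP (fun z : List Bool => (fs z).tail) := FP.tail.comp FP.fsI
  have h4 : FP (fun z : List Bool => (fs z).tail.tail) := FP.tail.comp h3
  exact FP.ite (FPb.isNil.comp h3) FP.id
    (FP.ite (FPb.and (FPb.hd.comp FP.fsI) (FPb.hd.comp h3)) (FP.pair FP.nil (FP.pair h2 h2))
      (FP.ite (FPb.hd.comp h3) (FP.pair h4 (FP.pair h4 h2)) (FP.pair h4 (FP.pair h1 h4))))

theorem sst_two (p q : Bool) (w a b : List Bool) : sst (pr (p :: q :: w) (pr a b)) =
    if p && q then pr [] (pr b b) else if q then pr w (pr w b) else pr w (pr a w) := by
  unfold sst
  simp [fs_pr, sn_pr]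

theorem sst_nil (a b : List Bool) : sst (pr [] (pr a b)) = pr [] (pr a b) := by
  unfold sst; simp

theorem sst_one (p : Bool) (a b : List Bool) : sst (pr [p] (pr a b)) = pr [p] (pr a b) := by
  unfold sst; simp

theorem sst_iter (n : ℕ) : ∀ (w a b : List Bool), w.length ≤ n →
    sn (sst^[n] (pr w (pr a b))) = pr (sel w a b).1 (sel w a b).2 := by
  have hnil : ∀ (n : ℕ) (a b : List Bool), sst^[n] (pr [] (pr a b)) = pr [] (pr a b) := by
    intro n a b
    induction n with
    | zero => rfl
    | succ n ih => rw [Function.iterate_succ_apply, sst_nil, ih]
  have hone : ∀ (n : ℕ) (p : Bool) (a b : List Bool),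
      sst^[n] (pr [p] (pr a b)) = pr [p] (pr a b) := by
    intro n p a b
    induction n with
    | zero => rfl
    | succ n ih => rw [Function.iterate_succ_apply, sst_one, ih]
  induction n with
  | zero =>
    intro w a b hw
    have : w = [] := List.length_eq_zero_iff.mp (by omega)
    subst this; simp [sel]
  | succ n ih =>
    intro w a b hw
    match w with
    | [] => rw [hnil]; simp [sel]
    | [p] => rw [hone]; simp [sel]
    | p :: q :: w =>
      simp only [List.length_cons] at hw
      rw [Function.iterate_succ_apply, sst_two]
      conv_rhs => unfold sel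
      split_ifs
      · rw [hnil]; simp
      · exact ih w w b (by omega)
      · exact ih w a w (by omega)

theorem sst_bound (i : ℕ) : ∀ (w a b : List Bool) (m : ℕ), w.length ≤ m → a.length ≤ m →
    b.length ≤ m → (sst^[i] (pr w (pr a b))).length ≤ 5 * m + 2 := by
  induction i with
  | zero =>
    intro w a b m h1 h2 h3
    simp only [Function.iterate_zero, id, pr_length]; omega
  | succ i ih =>
    intro w a b m h1 h2 h3
    rw [Function.iterate_succ_apply]
    match w with
    | [] => rw [sst_nil]; exact ih _ _ _ m h1 h2 h3
    | [p] => rw [sst_one]; exact ih _ _ _ m h1 h2 h3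
    | p :: q :: w =>
      simp only [List.length_cons] at h1
      rw [sst_two]
      split_ifs
      · exact ih _ _ _ m (by simp) h3 h3
      · exact ih _ _ _ m (by omega) (by omega) h3
      · exact ih _ _ _ m (by omega) h2 (by omega)

theorem FP.sel {f g h : List Bool → List Bool} (hf : FP f) (hg : FP g) (hh : FP h) :
    FP (fun x => (sel (f x) (g x) (h x)).1) ∧ FP (fun x => (sel (f x) (g x) (h x)).2) := by
  obtain ⟨P, hP⟩ := hf.length
  obtain ⟨Q, hQ⟩ := hg.length
  obtain ⟨R, hR⟩ := hh.length
  have h1 := FP.iter FP.sst hf (hf.pair (hg.pair hh)) (5 * (P + Q + R) + 2) (fun x i _ => by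
    refine (sst_bound i _ _ _ (P.eval x.length + Q.eval x.length + R.eval x.length) ?_ ?_ ?_).trans
      ?_
    · have := hP x; omega
    · have := hQ x; omega
    · have := hR x; omega
    · simp only [eval_add, eval_mul, eval_ofNat]; exact le_rfl)
  constructor
  · refine (h1.snd.fst).congr (fun x => ?_)
    rw [sst_iter _ _ _ _ le_rfl, fs_pr]
  · refine (h1.snd.snd).congr (fun x => ?_)
    rw [sst_iter _ _ _ _ le_rfl, sn_pr]

end Pool.Agent.Work.MP_88f784_lc
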