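import Mathlib
import Pool.Agent.Work.MP_88f784_lc.RunB
import Pool.Agent.Work.MP_0532f7_lc.Enum
import Pool.Agent.Work.MP_88f784_lc.Words

/-!
Iterating a polynomial-time function on short words is possible in polynomial space.
-/

namespace Pool.Agent.Work.MP_88f784_lc

open Pool.Agent.Work.MP_0532f7_lc Polynomial

theorem upd_inp (z : List Bool) (a : ℕ) (ha : a ≠ 0) (w : List Bool) :
    upd (upd (inp z) a [true]) 0 w = upd (inp w) a [true] := by
  funext i
  simp only [upd, inp]
  split_ifs with h1 h2
  · subst h1; exact absurd h2.symm ha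
  · rfl
  · rfl
  · rfl

theorem upd_inp_nil (z : List Bool) (a : ℕ) (ha : a ≠ 0) :
    upd (upd (inp z) a [true]) a [] = inp z := by
  funext i
  simp only [upd, inp]
  split_ifs with h1 h2
  · subst h1; exact absurd h2 ha
  · rfl
  · rfl
  · rfl

theorem runB_spec {W : Store → Prop} {f : List Bool → List Bool} {p : Prog} {m : ℕ}
    {P : Polynomial ℕ} (hp : Spec f p m P) (t : Store) (ht : ∀ r, 0 < r → r < m → t r = [])
    (B : ℕ) (hB : (t 0).length ≤ B)
    (hW : ∀ u : Store, (∀ r, (u r).length ≤ (t r).length + P.eval B) → W u) :
    RunB W p t (upd t 0 (f (t 0))) := by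
  refine RunB.of_runLe (hp t ht) (fun u hu => hW u (fun r => ?_))
  have h1 := hu r
  have h2 := pmono P hB
  omega

theorem loopB {W : Store → Prop} {st : List Bool → List Bool} {p : Prog} {m : ℕ}
    {P : Polynomial ℕ} (hp : Spec st p m P) {a : ℕ} (ha : m ≤ a) (ha0 : a ≠ 0) (B : ℕ)
    (hW : ∀ u : Store, (∀ r, (u r).length ≤ B + 1 + P.eval B) → W u) (n : ℕ) :
    ∀ z : List Bool, (∀ i, i ≤ n + 1 → (st^[i] z).length ≤ B) →
    (∀ i, 0 < i → i ≤ n → (st^[i] z).head? ≠ some true) →
    (st^[n + 1] z).head? = some true →
    RunB W (.loop a (.seq p (.cond 0 .skip .skip (.pop a)))) (upd (inp z) a [true])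
      (inp (st^[n + 1] z)) := by
  have hst : ∀ (z : List Bool) r, (upd (inp z) a [true] r).length ≤ z.length + 1 := by
    intro z r
    simp only [upd, inp]
    split_ifs <;> simp
  have hin : ∀ (z : List Bool) r, (inp z r).length ≤ z.length := by
    intro z r
    simp only [upd, inp]
    split_ifs <;> simp
  have hbody : ∀ z : List Bool, z.length ≤ B →
      RunB W p (upd (inp z) a [true]) (upd (inp (st z)) a [true]) := by
    intro z hz
    have e0 : upd (inp z) a [true] 0 = z := by
      rw [upd_ne _ _ (Ne.symm ha0)]; simp [inp]
    have h1 := runB_spec (W := W) hp (upd (inp z) a [true]) (fun r h0 h1 => by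
      rw [upd_ne _ _ (by omega)]
      simp [inp, upd]; omega) B (by rw [e0]; exact hz) (fun u hu => hW u (fun r => by
        have h2 := hu r
        have h3 := hst z r
        omega))
    rw [e0, upd_inp _ _ ha0] at h1
    exact h1
  induction n with
  | zero =>
    intro z hl _ hh
    have h0 := hl 0 (by omega)
    have h1 := hl 1 (by omega)
    rw [Function.iterate_zero, id] at h0
    have e1 : st^[0 + 1] z = st z := rfl
    have e1' : st^[1] z = st z := rfl
    rw [e1] at hh ⊢
    rw [e1'] at h1
    refine RunB.loopS (hW _ (fun r => by have := hst z r; omega)) (by simp)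
      (RunB.seq (hbody z h0) (RunB.condT ?_ (RunB.pop _ _))) ?_
    · rw [upd_ne _ _ (Ne.symm ha0)]
      simpa [inp] using hh
    · rw [upd_same, List.tail_cons, upd_inp_nil _ _ ha0]
      refine RunB.loopN (hW _ (fun r => by have := hin (st z) r; omega)) ?_
      simp [inp, upd, ha0]
  | succ n ih =>
    intro z hl hne hh
    have h0 := hl 0 (by omega)
    rw [Function.iterate_zero, id] at h0
    have h2 := ih (st z) (fun i hi => by
      rw [← Function.iterate_succ_apply]; exact hl (i + 1) (by omega))
      (fun i hi hi' => by
        rw [← Function.iterate_succ_apply]; exact hne (i + 1) (by omega) (by omega))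
      (by rw [← Function.iterate_succ_apply]; exact hh)
    rw [← Function.iterate_succ_apply] at h2
    refine RunB.loopS (hW _ (fun r => by have := hst z r; omega)) (by simp)
      (RunB.seq (hbody z h0) ?_) h2
    have h3 := hne 1 (by omega) (by omega)
    have e1 : st^[1] z = st z := rfl
    rw [e1] at h3
    have e2 : upd (inp (st z)) a [true] 0 = st z := by
      rw [upd_ne _ _ (Ne.symm ha0)]; simp [inp]
    rcases hq : (st z).head? with _ | b
    · exact RunB.condN (by rw [e2]; exact hq) (RunB.skip _)
    · cases b with
      | false => exact RunB.condF (by rw [e2]; exact hq) (RunB.skip _)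
      | true => exact absurd hq h3

/-- languages decided by iterating a polynomial-time function on short words are in PSPACE -/
theorem inPSPACE_iter {L : Set (List Bool)} {init st : List Bool → List Bool}
    {post : List Bool → Bool} (hi : FP init) (hs : FP st) (ho : FPb post) (Q : Polynomial ℕ)
    (N : List Bool → ℕ)
    (hl : ∀ x i, i ≤ N x + 1 → (st^[i] (init x)).length ≤ Q.eval x.length)
    (hne : ∀ x i, 0 < i → i ≤ N x → (st^[i] (init x)).head? ≠ some true)
    (hN : ∀ x, (st^[N x + 1] (init x)).head? = some true)
    (hL : ∀ x, x ∈ L ↔ post (st^[N x + 1] (init x)) = true) : InPSPACE L := by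
  obtain ⟨pi, mi, Pi, hpi⟩ := hi.spec
  obtain ⟨ps, ms, Ps, hps⟩ := hs.spec
  obtain ⟨po, mo, Po, hpo⟩ := FP.spec ho
  obtain ⟨a, ha⟩ : ∃ a, a = ms + 1 := ⟨_, rfl⟩
  refine inPSPACE_of_runB
    (p := .seq pi (.seq (.push a true)
      (.seq (.loop a (.seq ps (.cond 0 .skip .skip (.pop a)))) po)))
    (P := (X + Pi) + (Q + 1 + Ps.comp Q) + (Q + Po.comp Q)) (fun x => ?_)
  have hin : ∀ (z : List Bool) r, (inp z r).length ≤ z.length := by
    intro z r
    simp only [upd, inp]
    split_ifs <;> simp
  have e0 : ∀ z, inp z 0 = z := fun z => by simp [inp]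
  have e1 : ∀ z w, upd (inp z) 0 w = inp w := fun z w => by rw [inp, upd_upd, inp]
  refine ⟨post (st^[N x + 1] (init x)), hL x, ?_⟩
  have r1 := runB_spec (W := fun t => ∀ r, (t r).length ≤
      ((X + Pi) + (Q + 1 + Ps.comp Q) + (Q + Po.comp Q)).eval x.length) hpi (inp x)
    (fun r h0 _ => by simp [inp, upd]; omega) x.length (by rw [e0]) (fun u hu r => by
      have h1 := hu r
      have h2 := hin x r
      simp only [eval_add, eval_X, eval_one, eval_comp]
      omega)
  rw [e0, e1] at r1
  have r2 := loopB (W := fun t => ∀ r, (t r).length ≤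
      ((X + Pi) + (Q + 1 + Ps.comp Q) + (Q + Po.comp Q)).eval x.length) hps (a := a) (by omega)
    (by omega) (Q.eval x.length) (fun u hu r => by
      have h1 := hu r
      simp only [eval_add, eval_X, eval_one, eval_comp]
      omega) (N x) (init x) (hl x) (hne x) (hN x)
  have r3 := runB_spec (W := fun t => ∀ r, (t r).length ≤
      ((X + Pi) + (Q + 1 + Ps.comp Q) + (Q + Po.comp Q)).eval x.length) hpo
    (inp (st^[N x + 1] (init x)))
    (fun r h0 _ => by simp [inp, upd]; omega) (Q.eval x.length)
    (by rw [e0]; exact hl x _ le_rfl) (fun u hu r => by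
      have h1 := hu r
      have h2 := hin (st^[N x + 1] (init x)) r
      have h3 := hl x _ le_rfl
      simp only [eval_add, eval_X, eval_one, eval_comp]
      omega)
  rw [e0, e1] at r3
  refine RunB.seq r1 (RunB.seq (RunB.push _ _ _) (RunB.seq ?_ r3))
  have e2 : upd (inp (init x)) a (true :: inp (init x) a) = upd (inp (init x)) a [true] := by
    have : inp (init x) a = [] := by simp [inp, upd]; omega
    rw [this]
  rw [e2]
  exact r2

/-- P is contained in PSPACE -/
theorem inPSPACE_of_inP {L : Set (List Bool)} (h : ∃ d, FP d ∧ ∀ x, x ∈ L ↔ d x = [true]) :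
    InPSPACE L := by
  obtain ⟨d, hd, hL⟩ := h
  have h1 : FPb (fun x => decide (d x = [true])) := FPb.eq hd (FP.const _)
  obtain ⟨Q, hQ⟩ := (FP.cons true).length
  refine inPSPACE_iter (init := fun x => x) (st := fun x => true :: x)
    (post := fun z => decide (d z.tail = [true])) FP.id (FP.cons true) (h1.comp FP.tail) (X + 1)
    (fun _ => 0) (fun x i hi => ?_) (fun x i h0 h1 => absurd h0 (by omega)) (fun x => rfl)
    (fun x => ?_)
  · rw [eval_add, eval_X, eval_one]
    rcases Nat.lt_or_ge 0 i with h2 | h2
    · have : i = 1 := by omega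
      subst this
      show (true :: x).length ≤ _
      simp
    · have : i = 0 := by omega
      subst this
      show x.length ≤ _
      omega
  · show _ ↔ decide (d (true :: x).tail = [true]) = true
    rw [List.tail_cons, decide_eq_true_eq]
    exact hL x

/-! ### long loops with a counter -/

theorem adv_eq_inc (w : List Bool) (h : w ≠ List.replicate w.length true) : adv true w = inc w := by
  induction w with
  | nil => simp at h
  | cons b w ih =>
    cases b with
    | false => simp [adv, inc]
    | true =>
      have h' : w ≠ List.replicate w.length true := by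
        intro h'
        apply h
        rw [List.length_cons, List.replicate_succ, ← h']
      have := ih h'
      simp [adv, inc, this]

theorem val_false (c : ℕ) : val (List.replicate c false) + 1 = 2 ^ c := by
  induction c with
  | zero => simp [val]
  | succ c ih =>
    have e : val (false :: List.replicate c false) = 2 * val (List.replicate c false) + 1 := by
      simp [val]; try omega
    rw [List.replicate_succ, e, pow_succ]; omega

theorem val_true (c : ℕ) : val (List.replicate c true) + 2 = 2 ^ (c + 1) := by
  induction c with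
  | zero => simp [val]
  | succ c ih =>
    have e : val (true :: List.replicate c true) = 2 * val (List.replicate c true) + 2 := by
      simp [val]; try omega
    rw [List.replicate_succ, e, pow_succ]; omega

theorem counter (c : ℕ) (i : ℕ) (hi : i + 1 ≤ 2 ^ c) :
    ((adv true)^[i] (List.replicate c false)).length = c ∧
    val ((adv true)^[i] (List.replicate c false)) + 1 = 2 ^ c + i := by
  induction i with
  | zero =>
    refine ⟨by simp, ?_⟩
    rw [Function.iterate_zero, id, val_false]; rfl
  | succ i ih =>
    obtain ⟨h1, h2⟩ := ih (by omega)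
    have hne : (adv true)^[i] (List.replicate c false) ≠
        List.replicate ((adv true)^[i] (List.replicate c false)).length true := by
      intro h
      rw [h1] at h
      rw [h] at h2
      have h3 := val_true c
      rw [pow_succ] at h3
      omega
    rw [Function.iterate_succ_apply', adv_eq_inc _ hne]
    have h3 := val_inc ((adv true)^[i] (List.replicate c false))
    refine ⟨?_, by omega⟩
    rw [← adv_eq_inc _ hne, adv_length, h1]

theorem counter_ne (c i : ℕ) (hi : i + 1 < 2 ^ c) : (adv true)^[i] (List.replicate c false) ≠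
    List.replicate c true := by
  intro h
  have h2 := (counter c i (by omega)).2
  rw [h] at h2
  have h3 := val_true c
  rw [pow_succ] at h3
  omega

theorem counter_end (c i : ℕ) (hi : i + 1 = 2 ^ c) : (adv true)^[i] (List.replicate c false) =
    List.replicate c true := by
  apply val_inj
  have h2 := (counter c i (by omega)).2
  have h3 := val_true c
  rw [pow_succ] at h3
  omega

end Pool.Agent.Work.MP_88f784_lc
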