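import Mathlib
import Pool.Agent.Work.MP_0532f7_lc.Clock
import Pool.Agent.Work.MP_0532f7_lc.Enum
import Pool.Agent.Work.MP_88f784_lc.Defs
import Pool.Agent.Work.MP_88f784_lc.Base

/-!
A language in PSPACE is decided by iterating a length-preserving polynomial-time function.
-/

namespace Pool.Agent.Work.MP_88f784_lc

open Pool.Agent.Work.MP_0532f7_lc Polynomial Turing

/-! ### space of table machines -/

/-- total length of the stacks -/
def total (S : List (List ℕ)) : ℕ := (S.map List.length).sum

theorem total_set (S : List (List ℕ)) (i : ℕ) (v : List ℕ) :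
    total (S.set i v) ≤ total S + v.length - (S.getD i []).length := by
  induction S generalizing i with
  | nil => simp [total]
  | cons s S ih =>
    cases i with
    | zero => simp only [total, List.set_cons_zero, List.map_cons, List.sum_cons,
        List.getD_cons_zero]; omega
    | succ i =>
      have h1 := ih i
      have h2 : (S.getD i []).length ≤ total S := by
        clear h1 ih
        induction S generalizing i with
        | nil => simp
        | cons a S ih2 =>
          cases i with
          | zero => simp [total]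
          | succ i =>
            have := ih2 i
            simp only [total, List.map_cons, List.sum_cons, List.getD_cons_succ] at *
            omega
      simp only [total, List.set_cons_succ, List.map_cons, List.sum_cons,
        List.getD_cons_succ] at *
      omega

theorem sstep_total (T : List (List ℕ)) (c : ℕ × List (List ℕ)) :
    total (sstep T c).2 ≤ total c.2 + 1 := by
  unfold sstep
  dsimp only
  split_ifs <;> first
    | exact Nat.le_succ _
    | (refine (total_set _ _ _).trans ?_
       simp only [List.length_cons, List.length_tail]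
       omega)
    | (refine (total_set _ _ _).trans ?_
       omega)

theorem sstep_iter_total (T : List (List ℕ)) (n : ℕ) (c : ℕ × List (List ℕ)) :
    total ((sstep T)^[n] c).2 ≤ total c.2 + n := by
  induction n with
  | zero => exact le_rfl
  | succ n ih =>
    rw [Function.iterate_succ_apply']
    have := sstep_total T ((sstep T)^[n] c)
    omega

/-- all numbers of a configuration are at most `A` -/
def Bdd (A : ℕ) (c : ℕ × List (List ℕ)) : Prop := c.1 ≤ A ∧ ∀ st ∈ c.2, ∀ a ∈ st, a ≤ A

theorem getD_le {A : ℕ} {l : List ℕ} (h : ∀ a ∈ l, a ≤ A) (i : ℕ) : l.getD i 0 ≤ A := by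
  rw [List.getD_eq_getElem?_getD]
  rcases hq : l[i]? with _ | a
  · simp
  · exact h a (List.mem_of_getElem? hq)

theorem getD_mem {A : ℕ} {S : List (List ℕ)} (h : ∀ st ∈ S, ∀ a ∈ st, a ≤ A) (i : ℕ) :
    ∀ a ∈ S.getD i [], a ≤ A := by
  rw [List.getD_eq_getElem?_getD]
  rcases hq : S[i]? with _ | st
  · intro a ha; simp at ha
  · exact h st (List.mem_of_getElem? hq)

theorem bdd_set {A : ℕ} {c : ℕ × List (List ℕ)} (h : Bdd A c) {q i : ℕ} {v : List ℕ}
    (hq : q ≤ A) (hv : ∀ a ∈ v, a ≤ A) : Bdd A (q, c.2.set i v) := by
  refine ⟨hq, fun st hst => ?_⟩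
  rcases List.mem_or_eq_of_mem_set hst with h2 | h2
  · exact h.2 st h2
  · rw [h2]; exact hv

theorem sstep_bdd {A : ℕ} {T : List (List ℕ)} (hT : ∀ row ∈ T, ∀ e ∈ row, e ≤ A)
    {c : ℕ × List (List ℕ)} (h : Bdd A c) : Bdd A (sstep T c) := by
  have hrow := getD_mem hT c.1
  have h3 := getD_mem h.2 ((T.getD c.1 []).getD 1 0)
  have h4 : ∀ a ∈ (T.getD c.1 []).getD 2 0 :: c.2.getD ((T.getD c.1 []).getD 1 0) [], a ≤ A := by
    intro a ha
    rcases List.mem_cons.mp ha with h4 | h4
    · rw [h4]; exact getD_le hrow _
    · exact h3 a h4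
  have h5 : ∀ a ∈ (c.2.getD ((T.getD c.1 []).getD 1 0) []).tail, a ≤ A :=
    fun a ha => h3 a (List.mem_of_mem_tail ha)
  have hq : ∀ i, ((T.getD c.1 []).drop 3).getD i 0 ≤ A := fun i =>
    getD_le (fun a ha => hrow a (List.mem_of_mem_drop ha)) _
  unfold sstep
  dsimp only
  split_ifs
  all_goals first
    | exact h
    | exact bdd_set h (hq _) h4
    | exact bdd_set h (hq _) h5
    | exact bdd_set h (hq _) h3

theorem sstep_iter_bdd {A : ℕ} {T : List (List ℕ)} (hT : ∀ row ∈ T, ∀ e ∈ row, e ≤ A)
    {c : ℕ × List (List ℕ)} (h : Bdd A c) (n : ℕ) : Bdd A ((sstep T)^[n] c) := by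
  induction n with
  | zero => exact h
  | succ n ih => rw [Function.iterate_succ_apply']; exact sstep_bdd hT ih

theorem encN_len {A : ℕ} {l : List ℕ} (h : ∀ a ∈ l, a ≤ A) :
    (encN l).length ≤ (2 * A + 1) * l.length := by
  induction l with
  | nil => simp
  | cons a l ih =>
    rw [encN_cons, pr_length, un_length, List.length_cons]
    have h1 := h a List.mem_cons_self
    have h2 := ih (fun b hb => h b (List.mem_cons_of_mem _ hb))
    have e : (2 * A + 1) * (l.length + 1) = (2 * A + 1) * l.length + (2 * A + 1) := by ring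
    rw [e]; omega

theorem encNN_len {A : ℕ} {S : List (List ℕ)} (h : ∀ st ∈ S, ∀ a ∈ st, a ≤ A) :
    (encNN S).length ≤ 2 * ((2 * A + 1) * total S) + S.length := by
  induction S with
  | nil => simp [encNN]
  | cons s S ih =>
    have e0 : encNN (s :: S) = pr (encN s) (encNN S) := rfl
    rw [e0, pr_length, List.length_cons]
    have h1 := encN_len (h s List.mem_cons_self)
    have h2 := ih (fun b hb => h b (List.mem_cons_of_mem _ hb))
    have e : total (s :: S) = s.length + total S := by simp [total]
    have e2 : (2 * A + 1) * (s.length + total S) =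
        (2 * A + 1) * s.length + (2 * A + 1) * total S := by ring
    rw [e, e2]; omega

theorem cfg_len {A : ℕ} {c : ℕ × List (List ℕ)} (h : Bdd A c) :
    (pr (un c.1) (encNN c.2)).length ≤ 2 * A + 1 + (2 * ((2 * A + 1) * total c.2) +
      c.2.length) := by
  rw [pr_length, un_length]
  have h1 := h.1
  have h2 := encNN_len h.2
  omega

theorem sstep_len (T : List (List ℕ)) (c : ℕ × List (List ℕ)) :
    (sstep T c).2.length = c.2.length := by
  unfold sstep
  dsimp only
  split_ifs <;> simp

theorem sstep_iter_len (T : List (List ℕ)) (n : ℕ) (c : ℕ × List (List ℕ)) :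
    ((sstep T)^[n] c).2.length = c.2.length := by
  induction n with
  | zero => rfl
  | succ n ih => rw [Function.iterate_succ_apply', sstep_len, ih]

/-! ### machines -/

noncomputable section

open Classical

variable (tm : FinTM2) (ia : tm.Γ tm.k₀ ≃ Bool) (oa : tm.Γ tm.k₁ ≃ Bool)

theorem total_es (c : tm.Cfg) : total (es tm ia oa c.stk) = space tm c := by
  unfold total es space
  rw [List.map_ofFn, List.sum_ofFn]
  simp only [Function.comp_apply, List.length_map]
  exact Equiv.sum_comp (Fintype.equivFin tm.K).symm (fun k => (c.stk k).length)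

theorem macro_space (B : ℕ) (n : ℕ) : ∀ (l : tm.Λ) (v : tm.σ) (S : ∀ k, List (tm.Γ k))
    (_ : good tm ia oa S)
    (_ : ∀ (i : ℕ) (c : tm.Cfg), (flip bind tm.step)^[i] (some (⟨some l, v, S⟩ : tm.Cfg)) =
      some c → space tm c ≤ B)
    (cf : tm.Cfg) (_ : cf.l = none)
    (_ : (flip bind tm.step)^[n] (some (⟨some l, v, S⟩ : tm.Cfg)) = some cf),
    (∃ m, (sstep (table tm ia oa))^[m] (sid tm (tm.m l, v), es tm ia oa S) =
      (sid tm (.halt, cf.var), es tm ia oa cf.stk)) ∧ (TM2.Stmt.halt : MS tm) ∈ nodes tm ∧
    ∀ j, total ((sstep (table tm ia oa))^[j] (sid tm (tm.m l, v), es tm ia oa S)).2 ≤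
      B + mxs tm := by
  induction n with
  | zero =>
    intro l v S _ _ cf hcf h
    simp only [Function.iterate_zero, id_eq, Option.some.injEq] at h
    rw [← h] at hcf
    exact absurd hcf (by simp)
  | succ n ih =>
    intro l v S hS hB cf hcf h
    have h0 := hB 0 _ rfl
    rw [← total_es tm ia oa] at h0
    have h0 : total (es tm ia oa S) ≤ B := h0
    rw [Function.iterate_succ_apply] at h
    have e1 : flip bind tm.step (some (⟨some l, v, S⟩ : tm.Cfg)) =
      some (@TM2.stepAux tm.K tm.Γ tm.Λ tm.σ tm.kDecidableEq (tm.m l) v S) := rfl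
    rw [e1] at h
    obtain ⟨⟨m, hm, h1⟩, h2, h3⟩ := micro tm ia oa (tm.m l) (mem_nodes tm l)
      (psym_le tm ia oa l) v S hS
    have hmx := sz_le tm l
    have hB' : ∀ (i : ℕ) (c : tm.Cfg), (flip bind tm.step)^[i]
        (some (@TM2.stepAux tm.K tm.Γ tm.Λ tm.σ tm.kDecidableEq (tm.m l) v S)) = some c →
        space tm c ≤ B := by
      intro i c hc
      refine hB (i + 1) c ?_
      rw [Function.iterate_succ_apply, e1]; exact hc
    have hsmall : ∀ j, j ≤ m → total ((sstep (table tm ia oa))^[j]
        (sid tm (tm.m l, v), es tm ia oa S)).2 ≤ B + mxs tm := by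
      intro j hj
      have := sstep_iter_total (table tm ia oa) j (sid tm (tm.m l, v), es tm ia oa S)
      dsimp only at this
      omega
    generalize @TM2.stepAux tm.K tm.Γ tm.Λ tm.σ tm.kDecidableEq (tm.m l) v S = c1 at h h1 h2 h3 hB'
    obtain ⟨l1, v1, S1⟩ := c1
    cases l1 with
    | none =>
      cases n with
      | zero =>
        obtain rfl : (⟨none, v1, S1⟩ : tm.Cfg) = cf := Option.some.inj h
        have hh := h3 rfl
        have hrep : rep tm ia oa (⟨none, v1, S1⟩ : tm.Cfg) =
          (sid tm (.halt, v1), es tm ia oa S1) := rfl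
        refine ⟨⟨m, by rw [h1]; rfl⟩, hh, fun j => ?_⟩
        rcases le_total j m with hj | hj
        · exact hsmall j hj
        · obtain ⟨d, rfl⟩ : ∃ d, j = d + m := ⟨j - m, by omega⟩
          have hz : ((table tm ia oa).getD (rep tm ia oa (⟨none, v1, S1⟩ : tm.Cfg)).1 []).getD 0 0
              = 0 := by
            rw [hrep, table_sid tm ia oa (mem_sts tm hh _)]; rfl
          rw [Function.iterate_add_apply, h1, sstep_halt_iter hz, hrep]
          have h4 := hB' 0 _ rfl
          rw [← total_es tm ia oa] at h4
          have h4 : total (es tm ia oa S1) ≤ B := h4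
          show total (es tm ia oa S1) ≤ _
          omega
      | succ n =>
        exfalso
        rw [Function.iterate_succ_apply] at h
        change (flip bind tm.step)^[n] (none : Option tm.Cfg) = some cf at h
        have e3 : ∀ k, (flip bind tm.step)^[k] (none : Option tm.Cfg) = none := by
          intro k
          induction k with
          | zero => rfl
          | succ k ihk => rw [Function.iterate_succ_apply]; exact ihk
        rw [e3] at h
        exact absurd h (by simp)
    | some l1 =>
      obtain ⟨⟨m', h4⟩, h5, h6⟩ := ih l1 v1 S1 h2 hB' cf hcf h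
      refine ⟨⟨m' + m, ?_⟩, h5, fun j => ?_⟩
      · rw [Function.iterate_add_apply, h1]
        exact h4
      · rcases le_total j m with hj | hj
        · exact hsmall j hj
        · obtain ⟨d, rfl⟩ : ∃ d, j = d + m := ⟨j - m, by omega⟩
          rw [Function.iterate_add_apply, h1]
          exact h6 d

theorem uinit_eq (x : List Bool) : uinit (codeOf tm ia oa) x =
    pr (un (sid tm (tm.m tm.main, tm.initialState)))
      (encNN (es tm ia oa (initList tm (x.map ia.symm)).stk)) := by
  have hn : ∀ i, nth (un i) (codeOf tm ia oa) = List.getD [encL (List.replicate (kid tm tm.k₀) []),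
    encL (List.replicate (Fintype.card tm.K - 1 - kid tm tm.k₀) []),
    un (ac tm ia oa ⟨tm.k₀, ia.symm false⟩), un (ac tm ia oa ⟨tm.k₀, ia.symm true⟩),
    un (kid tm tm.k₁), un (ac tm ia oa ⟨tm.k₁, oa.symm true⟩), un (sid tm (tm.m tm.main, tm.initialState)),
    encNN (table tm ia oa)] i [] := by
    intro i
    unfold codeOf
    rw [nth_encL, un_length]
  unfold uinit
  rw [es_init, hn 0, hn 1, hn 2, hn 3, hn 6]
  rfl

/-- code of the halting configuration with output `b` -/
def zhalt (b : Bool) : List Bool :=
  pr (un (sid tm ((.halt : MS tm), tm.initialState)))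
    (encNN (es tm ia oa (haltList tm [oa.symm b]).stk))

theorem zhalt_inj (h : zhalt tm ia oa true = zhalt tm ia oa false) : False := by
  have h1 := congrArg sn h
  unfold zhalt at h1
  rw [sn_pr, sn_pr] at h1
  have h2 := congrArg (nth (un (kid tm tm.k₁))) h1
  rw [nth_encNN, nth_encNN, un_length, es_getD, es_getD] at h2
  have e2 : ∀ b, (haltList tm [oa.symm b]).stk tm.k₁ = [oa.symm b] := by
    intro b; simp [haltList]
  rw [e2, e2] at h2
  simp only [List.map_cons, List.map_nil, encN_cons, encN_nil] at h2
  have h3 := congrArg fs h2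
  rw [fs_pr, fs_pr] at h3
  have h4 := un_inj h3
  have hmem : ∀ b, (⟨tm.k₁, oa.symm b⟩ : Σ k, tm.Γ k) ∈ syms tm ia oa := by
    intro b
    unfold syms
    exact Finset.mem_union_right _ (Finset.mem_image.mpr ⟨b, Finset.mem_univ _, rfl⟩)
  have h5 := ac_inj tm ia oa (hmem true) (hmem false) h4
  simp only [Sigma.mk.injEq, heq_eq_eq, true_and] at h5
  exact absurd (oa.symm.injective h5) (by simp)

theorem ac_le (a : Σ k, tm.Γ k) : ac tm ia oa a ≤ (syms tm ia oa).card := by
  unfold ac
  split_ifs
  · exact (Fin.is_lt _).le
  · exact Nat.zero_le _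

/-- the encoded run: lengths are bounded, and it reaches the halting configuration -/
theorem run_space (p : Polynomial ℕ) : ∃ q : Polynomial ℕ, ∀ (x : List Bool) (b : Bool),
    (∃ n, (flip bind tm.step)^[n] (some (initList tm (x.map ia.symm))) =
      some (haltList tm [oa.symm b])) →
    (∀ (n : ℕ) (c : tm.Cfg), (flip bind tm.step)^[n] (some (initList tm (x.map ia.symm))) =
      some c → space tm c ≤ p.eval x.length) →
    (∀ j, ((ustep (encNN (table tm ia oa)))^[j] (uinit (codeOf tm ia oa) x)).length ≤
      q.eval x.length) ∧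
    (∃ m, (ustep (encNN (table tm ia oa)))^[m] (uinit (codeOf tm ia oa) x) = zhalt tm ia oa b) ∧
    ustep (encNN (table tm ia oa)) (zhalt tm ia oa b) = zhalt tm ia oa b := by
  -- a bound for all numbers
  obtain ⟨A0, hA0⟩ : ∃ A, ∀ row ∈ table tm ia oa, ∀ e ∈ row, e ≤ A := by
    have h1 : ∀ T : List (List ℕ), ∃ A, ∀ row ∈ T, ∀ e ∈ row, e ≤ A := by
      intro T
      induction T with
      | nil => exact ⟨0, by simp⟩
      | cons r T ih =>
        obtain ⟨A, hA⟩ := ih
        have h2 : ∀ l : List ℕ, ∃ A, ∀ e ∈ l, e ≤ A := by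
          intro l
          induction l with
          | nil => exact ⟨0, by simp⟩
          | cons a l ih =>
            obtain ⟨A, hA⟩ := ih
            exact ⟨A + a, fun e he => by
              rcases List.mem_cons.mp he with h | h
              · omega
              · have := hA e h; omega⟩
        obtain ⟨A', hA'⟩ := h2 r
        exact ⟨A + A', fun row hrow e he => by
          rcases List.mem_cons.mp hrow with h | h
          · rw [h] at he; have := hA' e he; omega
          · have := hA row h e he; omega⟩
    exact h1 _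
  obtain ⟨A, hA⟩ : ∃ A, A = A0 + sid tm (tm.m tm.main, tm.initialState) + (syms tm ia oa).card :=
    ⟨_, rfl⟩
  have hT : ∀ row ∈ table tm ia oa, ∀ e ∈ row, e ≤ A := fun row hr e he => by
    have := hA0 row hr e he; omega
  refine ⟨C (2 * A + 1) + (C 2 * (C (2 * A + 1) * (p + C (mxs tm))) + C (Fintype.card tm.K)),
    fun x b hrun hsp => ?_⟩
  obtain ⟨n, hn⟩ := hrun
  obtain ⟨⟨m, h1⟩, h2, h3⟩ := macro_space tm ia oa (p.eval x.length) n tm.main tm.initialState
    (initList tm (x.map ia.symm)).stk (good_init tm ia oa x) hsp (haltList tm [oa.symm b]) rfl hn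
  have hS : (es tm ia oa (initList tm (x.map ia.symm)).stk).length = Fintype.card tm.K := by
    simp [es]
  have hu : ∀ j, (ustep (encNN (table tm ia oa)))^[j] (uinit (codeOf tm ia oa) x) =
      pr (un ((sstep (table tm ia oa))^[j] (sid tm (tm.m tm.main, tm.initialState),
        es tm ia oa (initList tm (x.map ia.symm)).stk)).1)
      (encNN ((sstep (table tm ia oa))^[j] (sid tm (tm.m tm.main, tm.initialState),
        es tm ia oa (initList tm (x.map ia.symm)).stk)).2) := by
    intro j
    rw [uinit_eq, urun_eq _ _ _ _ (fun row hr hk => by rw [hS]; exact table_k tm ia oa row hr hk)]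
  have hb0 : Bdd A (sid tm (tm.m tm.main, tm.initialState),
      es tm ia oa (initList tm (x.map ia.symm)).stk) := by
    refine ⟨by dsimp only; omega, fun st hst a ha => ?_⟩
    dsimp only at hst
    unfold es at hst
    rw [List.mem_ofFn] at hst
    obtain ⟨i, rfl⟩ := hst
    obtain ⟨s, _, rfl⟩ := List.mem_map.mp ha
    have := ac_le tm ia oa ⟨_, s⟩
    omega
  refine ⟨fun j => ?_, ⟨m, ?_⟩, ?_⟩
  · rw [hu]
    refine (cfg_len (sstep_iter_bdd hT hb0 j)).trans ?_
    rw [sstep_iter_len, hS]
    simp only [eval_add, eval_mul, eval_C]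
    have h4 := h3 j
    have h5 := Nat.mul_le_mul_left (2 * (2 * A + 1)) h4
    have e1 : 2 * (2 * A + 1) * total ((sstep (table tm ia oa))^[j]
        (sid tm (tm.m tm.main, tm.initialState),
          es tm ia oa (initList tm (x.map ia.symm)).stk)).2 =
        2 * ((2 * A + 1) * total ((sstep (table tm ia oa))^[j]
        (sid tm (tm.m tm.main, tm.initialState),
          es tm ia oa (initList tm (x.map ia.symm)).stk)).2) := by ring
    have e2 : 2 * (2 * A + 1) * (eval x.length p + mxs tm) =
        2 * ((2 * A + 1) * (eval x.length p + mxs tm)) := by ring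
    rw [e1, e2] at h5
    omega
  · rw [hu, h1]; rfl
  · have hz : ((table tm ia oa).getD (sid tm ((.halt : MS tm), tm.initialState)) []).getD 0 0
        = 0 := by
      rw [table_sid tm ia oa (mem_sts tm h2 _)]; rfl
    unfold zhalt
    rw [ustep_eq _ _ _ (fun h => absurd hz h), sstep_halt (by exact hz)]

end

/-! ### reaching a fixed point in a finite set -/

theorem fixed_of_bound (f : List Bool → List Bool) (z y : List Bool) (q m : ℕ)
    (hlen : ∀ j, (f^[j] z).length ≤ q) (hm : f^[m] z = y) (hy : f y = y) :
    f^[2 ^ (q + 1)] z = y := by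
  classical
  have hex : ∃ m, f (f^[m] z) = f^[m] z := ⟨m, by rw [hm, hy]⟩
  obtain ⟨m0, hm0⟩ : ∃ m0, m0 = Nat.find hex := ⟨_, rfl⟩
  have hfix : f (f^[m0] z) = f^[m0] z := by rw [hm0]; exact Nat.find_spec hex
  have hmin : ∀ i, i < m0 → f (f^[i] z) ≠ f^[i] z := fun i hi => by
    rw [hm0] at hi; exact Nat.find_min hex hi
  have stay : ∀ a, f (f^[a] z) = f^[a] z → ∀ d, f^[d + a] z = f^[a] z := by
    intro a ha d
    induction d with
    | zero => rw [Nat.zero_add]
    | succ d ih =>
      rw [show d + 1 + a = (d + a) + 1 from by omega, Function.iterate_succ_apply', ih, ha]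
  have hinj : ∀ i j, i ≤ m0 → j ≤ m0 → i < j → f^[i] z ≠ f^[j] z := by
    intro i j _ hj hij heq
    have h1 : ∀ t, f^[t + i] z = f^[t + j] z := by
      intro t
      rw [Function.iterate_add_apply, heq, ← Function.iterate_add_apply]
    have h2 := h1 (m0 - j)
    rw [show m0 - j + j = m0 from by omega] at h2
    refine hmin (m0 - j + i) (by omega) ?_
    rw [h2, hfix]
  have hcard : m0 + 1 ≤ 2 ^ (q + 1) := by
    have h1 : (Finset.range (m0 + 1)).card ≤ (Finset.range (2 ^ (q + 1))).card := by
      refine Finset.card_le_card_of_injOn (fun j => val (f^[j] z)) ?_ ?_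
      · intro j _
        rw [Finset.coe_range, Set.mem_Iio]
        have h2 := val_le (f^[j] z)
        have h3 : 2 ^ ((f^[j] z).length + 1) ≤ 2 ^ (q + 1) :=
          Nat.pow_le_pow_right (by omega) (by have := hlen j; omega)
        show val (f^[j] z) < 2 ^ (q + 1)
        omega
      · intro i hi j hj hij
        rw [Finset.coe_range, Set.mem_Iio] at hi hj
        have h2 : f^[i] z = f^[j] z := val_inj hij
        rcases lt_trichotomy i j with h3 | h3 | h3
        · exact absurd h2 (hinj i j (by omega) (by omega) h3)
        · exact h3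
        · exact absurd h2.symm (hinj j i (by omega) (by omega) h3)
    rwa [Finset.card_range, Finset.card_range] at h1
  have e1 : f^[2 ^ (q + 1)] z = f^[m0] z := by
    obtain ⟨d, hd⟩ : ∃ d, 2 ^ (q + 1) = d + m0 := ⟨2 ^ (q + 1) - m0, by omega⟩
    rw [hd]; exact stay m0 hfix d
  have e2 : f^[m] z = f^[m0] z := by
    have h1 : m0 ≤ m := by
      by_contra h
      exact hmin m (by omega) (by rw [hm, hy])
    obtain ⟨d, hd⟩ : ∃ d, m = d + m0 := ⟨m - m0, by omega⟩
    rw [hd]; exact stay m0 hfix d
  rw [e1, ← e2, hm]

/-! ### padding -/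

/-- remove leading zeros -/
def dz (l : List Bool) : List Bool := l.dropWhile (fun b => !b)

/-- step of the removal -/
def dzs (z : List Bool) : List Bool :=
  if (!z.isEmpty && !z.head?.getD false) = true then z.tail else z

theorem FP.dz {f : List Bool → List Bool} (hf : FP f) : FP (fun x => dz (f x)) := by
  have h1 : FP dzs := FP.ite (FPb.and FPb.isNil.not FPb.hd.not) FP.tail FP.id
  have hlen : ∀ i (z : List Bool), (dzs^[i] z).length ≤ z.length := by
    intro i
    induction i with
    | zero => intro z; exact le_rfl
    | succ i ih =>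
      intro z
      rw [Function.iterate_succ_apply]
      refine (ih _).trans ?_
      unfold dzs
      split_ifs
      · simp
      · exact le_rfl
  obtain ⟨Q, hQ⟩ := hf.length
  have h2 := FP.iter h1 hf hf Q (fun x i _ => (hlen i _).trans (hQ x))
  refine h2.congr (fun x => ?_)
  have key : ∀ l : List Bool, dzs^[l.length] l = MP_88f784_lc.dz l := by
    intro l
    induction l with
    | nil => rfl
    | cons b l ih =>
      cases b with
      | false =>
        rw [List.length_cons, Function.iterate_succ_apply]
        have e : dzs (false :: l) = l := by simp [dzs]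
        rw [e, ih]
        simp [MP_88f784_lc.dz]
      | true =>
        have hfix : ∀ n, dzs^[n] (true :: l) = true :: l := by
          intro n
          induction n with
          | zero => rfl
          | succ n ihn =>
            rw [Function.iterate_succ_apply]
            have e : dzs (true :: l) = true :: l := by simp [dzs]
            rw [e, ihn]
        rw [hfix]
        simp [MP_88f784_lc.dz]
  exact key (f x)

/-- remove the padding -/
def unpad (r : List Bool) : List Bool := (dz r.reverse).tail.reverse

theorem FP.unpad : FP unpad := FP.rev (FP.tail.comp (FP.dz FP.reverse))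

theorem unpad_app (z : List Bool) (j : ℕ) :
    unpad (z ++ true :: List.replicate j false) = z := by
  unfold unpad dz
  have e : (z ++ true :: List.replicate j false).reverse =
      List.replicate j false ++ (true :: z.reverse) := by simp
  have h : ∀ j, (List.replicate j false ++ (true :: z.reverse)).dropWhile (fun b => !b) =
      true :: z.reverse := by
    intro j
    induction j with
    | zero => simp
    | succ j ih => rw [List.replicate_succ, List.cons_append]; simp
  rw [e, h, List.tail_cons, List.reverse_reverse]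

/-- padding to length `M` -/
def padTo (M : ℕ) (z : List Bool) : List Bool := (z ++ true :: List.replicate M false).take M

theorem padTo_length (M : ℕ) (z : List Bool) : (padTo M z).length = M := by
  unfold padTo
  rw [List.length_take, List.length_append, List.length_cons, List.length_replicate]
  omega

theorem unpad_padTo {M : ℕ} {z : List Bool} (h : z.length < M) : unpad (padTo M z) = z := by
  have e : padTo M z = z ++ true :: List.replicate (M - z.length - 1) false := by
    unfold padTo
    rw [List.take_append, List.take_of_length_le h.le]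
    obtain ⟨d, hd⟩ : ∃ d, M - z.length = d + 1 := ⟨M - z.length - 1, by omega⟩
    rw [hd, List.take_succ_cons, List.take_replicate, min_eq_left (by omega)]
    rfl
  rw [e, unpad_app]

/-- a language in PSPACE is decided by iterating a length-preserving function -/
theorem pspace_iter {L : Set (List Bool)} (h : InPSPACE L) :
    ∃ (S init k : List Bool → List Bool) (α : List Bool → Bool), FP S ∧ FP init ∧ FP k ∧ FPb α ∧
      (∀ r, (S r).length = r.length) ∧ (∀ x, (init x).length = (k x).length) ∧
      (∀ x, 0 < (k x).length) ∧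
      ∀ x, x ∈ L ↔ α (S^[2 ^ (k x).length] (init x)) = true := by
  obtain ⟨T, p, hT⟩ := h
  obtain ⟨q, hq⟩ := run_space T.tm T.inputAlphabet T.outputAlphabet p
  obtain ⟨TT, hTT⟩ : ∃ TT, TT = encNN (table T.tm T.inputAlphabet T.outputAlphabet) := ⟨_, rfl⟩
  obtain ⟨c, hc⟩ : ∃ c, c = codeOf T.tm T.inputAlphabet T.outputAlphabet := ⟨_, rfl⟩
  obtain ⟨k, hk, hk'⟩ := FP.clock (q + 1)
  have hstep : FP (fun z => ustep TT z) := by
    have := FP.ustepI.comp (FP.pair (FP.const TT) FP.id)
    refine this.congr (fun x => ?_)
    rw [fs_pr, sn_pr]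
  have hinit : FP (fun x => uinit c x) := by
    have hn : ∀ i, FP (fun x => nth (un i) c) := fun i => FP.const _
    exact FP.pair (hn 6) (FP.app (hn 0) (FP.pair (FP.isymI (hn 2) (hn 3) FP.id) (hn 1)))
  have hpad : ∀ {f g : List Bool → List Bool}, FP f → FP g →
      FP (fun x => padTo (f x).length (g x)) := by
    intro f g hf hg
    refine (FP.take hf (FP.app hg ((FP.cons true).comp (FP.zs hf)))).congr (fun x => ?_)
    unfold padTo zs; rfl
  refine ⟨fun r => padTo r.length (ustep TT (unpad r)), fun x => padTo (k x).length (uinit c x), k,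
    fun r => decide (unpad r = zhalt T.tm T.inputAlphabet T.outputAlphabet true),
    hpad FP.id (hstep.comp FP.unpad), hpad hk hinit, hk, FPb.eq FP.unpad (FP.const _),
    fun r => padTo_length _ _, fun x => padTo_length _ _, fun x => ?_, fun x => ?_⟩
  · rw [hk', eval_add, eval_one]; omega
  · obtain ⟨⟨b, hb, ⟨ho⟩⟩, hsp⟩ := hT x
    obtain ⟨h1, ⟨m, h2⟩, h3⟩ := hq x b ⟨_, ho.evals_in_steps⟩ hsp
    rw [← hTT] at h1 h2 h3
    rw [← hc] at h1 h2
    have hK : (k x).length = q.eval x.length + 1 := by rw [hk', eval_add, eval_one]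
    have key : ∀ j, (fun r => padTo r.length (ustep TT (unpad r)))^[j]
        (padTo (k x).length (uinit c x)) = padTo (k x).length ((ustep TT)^[j] (uinit c x)) := by
      intro j
      induction j with
      | zero => rfl
      | succ j ih =>
        rw [Function.iterate_succ_apply', ih]
        rw [padTo_length, unpad_padTo (by have := h1 j; omega),
          Function.iterate_succ_apply' (ustep TT)]
    rw [key, decide_eq_true_eq, unpad_padTo (by have := h1 (2 ^ (k x).length); omega), hK,
      fixed_of_bound _ _ _ _ m h1 h2 h3, hb]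
    constructor
    · intro hbt; rw [hbt]
    · intro he
      by_contra hbf
      have : b = false := by simpa using hbf
      rw [this] at he
      exact zhalt_inj _ _ _ he.symm

end Pool.Agent.Work.MP_88f784_lc
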