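import Mathlib
import Pool.Agent.Work.MP_88f784_lc.Loop
import Pool.Agent.Work.MP_88f784_lc.Space

/-!
If P = PSPACE, then equivalence via 1-1, length-nondecreasing, p-invertible reductions implies
p-isomorphism (Fenner, Kurtz, Royer).
-/

namespace Pool.Agent.Work.MP_88f784_lc

open Pool.Agent.Work.MP_0532f7_lc Polynomial

/-- one step backwards in a chain -/
def back (fi gi : List Bool → List Bool) (y : List Bool) : List Bool :=
  if ty y = true then
    if ty y.tail = true then
      (if (gi y.tail.tail).isEmpty = true then [false] else true :: false :: (gi y.tail.tail).tail)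
    else
      (if (fi y.tail.tail).isEmpty = true then [] else true :: true :: (fi y.tail.tail).tail)
  else y

theorem FP.back {fi gi : List Bool → List Bool} (hf : FP fi) (hg : FP gi) :
    FP (back fi gi) := by
  have h2 : FP (fun y : List Bool => y.tail.tail) := FP.tail.comp FP.tail
  have hg2 := hg.comp h2
  have hf2 := hf.comp h2
  exact FP.ite (FPb.ty FP.id) (FP.ite (FPb.ty FP.tail)
    (FP.ite (FPb.isNil.comp hg2) (FP.const _)
      ((FP.cons true).comp ((FP.cons false).comp (FP.tail.comp hg2))))
    (FP.ite (FPb.isNil.comp hf2) (FP.const _)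
      ((FP.cons true).comp ((FP.cons true).comp (FP.tail.comp hf2))))) FP.id

section

variable {f g fi gi : List Bool → List Bool}

theorem back_nil : back fi gi [] = [] := rfl

theorem back_false : back fi gi [false] = [false] := rfl

theorem back_A (h1 : ∀ x, gi (g x) = true :: x) (b : List Bool) :
    back fi gi (true :: true :: g b) = true :: false :: b := by
  simp [back, ty, h1]

theorem back_A' {z : List Bool} (h : gi z = []) :
    back fi gi (true :: true :: z) = [false] := by
  simp [back, ty, h]

theorem back_B (h1 : ∀ x, fi (f x) = true :: x) (a : List Bool) :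
    back fi gi (true :: false :: f a) = true :: true :: a := by
  simp [back, ty, h1]

theorem back_B' {z : List Bool} (h : fi z = []) :
    back fi gi (true :: false :: z) = [] := by
  simp [back, ty, h]

/-- reachable states -/
def Gd (m : ℕ) (y : List Bool) : Prop :=
  y = [] ∨ y = [false] ∨ ∃ b z, y = true :: b :: z ∧ z.length ≤ m

theorem Gd.len {m : ℕ} {y : List Bool} (h : Gd m y) : y.length ≤ m + 2 := by
  rcases h with rfl | rfl | ⟨b, z, rfl, hz⟩
  · simp
  · simp
  · simp only [List.length_cons]; omega

theorem Gd.back (hf : ∀ x, fi (f x) = true :: x) (hg : ∀ x, gi (g x) = true :: x)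
    (hf' : ∀ y, y ∉ Set.range f → fi y = []) (hg' : ∀ y, y ∉ Set.range g → gi y = [])
    (lf : ∀ x, x.length ≤ (f x).length) (lg : ∀ x, x.length ≤ (g x).length)
    {m : ℕ} {y : List Bool} (h : Gd m y) : Gd m (back fi gi y) := by
  rcases h with rfl | rfl | ⟨b, z, rfl, hz⟩
  · exact Or.inl rfl
  · exact Or.inr (Or.inl rfl)
  · cases b with
    | true =>
      by_cases h : z ∈ Set.range g
      · obtain ⟨b, rfl⟩ := h
        rw [back_A hg]
        exact Or.inr (Or.inr ⟨_, _, rfl, (lg b).trans hz⟩)
      · rw [back_A' (hg' z h)]
        exact Or.inr (Or.inl rfl)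
    | false =>
      by_cases h : z ∈ Set.range f
      · obtain ⟨a, rfl⟩ := h
        rw [back_B hf]
        exact Or.inr (Or.inr ⟨_, _, rfl, (lf a).trans hz⟩)
      · rw [back_B' (hf' z h)]
        exact Or.inl rfl

/-- the words of `A` whose chain starts on the side of `B` -/
def DD (fi gi : List Bool → List Bool) : Set (List Bool) :=
  {a | ∃ n, (back fi gi)^[n] (true :: true :: a) = []}

/-- the counting loop -/
def lst (fi gi : List Bool → List Bool) (z : List Bool) : List Bool :=
  if decide (fs z.tail = (zs (fs z.tail)).map (fun b => !b)) = true then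
    true :: pr (fs z.tail) (sn z.tail)
  else false :: pr (adv true (fs z.tail)) (back fi gi (sn z.tail))

end

theorem FP.ones {f : List Bool → List Bool} (hf : FP f) :
    FP (fun x => List.replicate (f x).length true) := by
  obtain ⟨Q, hQ⟩ := hf.length
  have key : ∀ i, (fun z : List Bool => true :: z)^[i] [] = List.replicate i true := by
    intro i
    induction i with
    | zero => rfl
    | succ i ih => rw [Function.iterate_succ_apply', ih, List.replicate_succ]
  refine (FP.iter (FP.cons true) hf FP.nil Q (fun x i hi => ?_)).congr (fun x => ?_)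
  · rw [key, List.length_replicate]; exact hi.trans (hQ x)
  · rw [key]

theorem zs_map (x : List Bool) : (zs x).map (fun b => !b) = List.replicate x.length true := by
  unfold zs; rw [List.map_replicate]; rfl

theorem FP.lst {fi gi : List Bool → List Bool} (hf : FP fi) (hg : FP gi) : FP (lst fi gi) := by
  have h1 : FP (fun z : List Bool => fs z.tail) := FP.fsI.comp FP.tail
  have h2 : FP (fun z : List Bool => sn z.tail) := FP.snI.comp FP.tail
  have h3 : FP (fun z : List Bool => (MP_88f784_lc.zs (fs z.tail)).map (fun b => !b)) :=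
    (FP.ones h1).congr (fun x => (zs_map _).symm)
  exact FP.ite (FPb.eq h1 h3) ((FP.cons true).comp (FP.pair h1 h2))
    ((FP.cons false).comp (FP.pair (FP.adv true h1) ((FP.back hf hg).comp h2)))

theorem iter_fix {F : List Bool → List Bool} {y : List Bool} (h : F y = y) (n : ℕ) :
    F^[n] y = y := by
  induction n with
  | zero => rfl
  | succ n ih => rw [Function.iterate_succ_apply, h, ih]

theorem DD_pspace {f g fi gi : List Bool → List Bool} (pf : FP fi) (pg : FP gi)
    (hf : ∀ x, fi (f x) = true :: x) (hg : ∀ x, gi (g x) = true :: x)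
    (hf' : ∀ y, y ∉ Set.range f → fi y = []) (hg' : ∀ y, y ∉ Set.range g → gi y = [])
    (lf : ∀ x, x.length ≤ (f x).length) (lg : ∀ x, x.length ≤ (g x).length) :
    InPSPACE (DD fi gi) := by
  have hGd : ∀ (a : List Bool) (n : ℕ), Gd a.length ((back fi gi)^[n] (true :: true :: a)) := by
    intro a n
    induction n with
    | zero => exact Or.inr (Or.inr ⟨_, _, rfl, le_rfl⟩)
    | succ n ih =>
      rw [Function.iterate_succ_apply']
      exact ih.back hf hg hf' hg' lf lg
  have hstep : ∀ (a : List Bool) (i : ℕ), i + 1 ≤ 2 ^ (a.length + 4) →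
      (lst fi gi)^[i] (false :: pr (List.replicate (a.length + 4) false) (true :: true :: a)) =
      false :: pr ((adv true)^[i] (List.replicate (a.length + 4) false))
        ((back fi gi)^[i] (true :: true :: a)) := by
    intro a i
    induction i with
    | zero => intro _; rfl
    | succ i ih =>
      intro hi
      rw [Function.iterate_succ_apply', ih (by omega)]
      have h1 := counter_ne (a.length + 4) i (by omega)
      have h2 := (counter (a.length + 4) i (by omega)).1
      unfold lst
      rw [List.tail_cons, fs_pr, sn_pr, zs_map, h2, if_neg (by simpa using h1),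
        ← Function.iterate_succ_apply' (adv true), ← Function.iterate_succ_apply' (back fi gi)]
  have hlast : ∀ (a : List Bool),
      (lst fi gi)^[2 ^ (a.length + 4) - 1 + 1]
        (false :: pr (List.replicate (a.length + 4) false) (true :: true :: a)) =
      true :: pr (List.replicate (a.length + 4) true)
        ((back fi gi)^[2 ^ (a.length + 4) - 1] (true :: true :: a)) := by
    intro a
    have hpos : 0 < 2 ^ (a.length + 4) := by positivity
    rw [Function.iterate_succ_apply', hstep a _ (by omega), counter_end _ _ (by omega)]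
    unfold lst
    rw [List.tail_cons, fs_pr, sn_pr, zs_map, List.length_replicate]
    simp
  refine inPSPACE_iter
    (init := fun a => false :: pr (List.replicate (a.length + 4) false) (true :: true :: a))
    (st := lst fi gi) (post := fun z => (sn z.tail).isEmpty) ?_ (FP.lst pf pg)
    (FPb.isNil.comp (FP.snI.comp FP.tail)) (3 * X + 12) (fun a => 2 ^ (a.length + 4) - 1)
    (fun a i hi => ?_) (fun a i h0 hi => ?_) (fun a => ?_) (fun a => ?_)
  · have h4 : FP (fun a : List Bool => true :: true :: true :: true :: a) :=
      (FP.cons true).comp ((FP.cons true).comp ((FP.cons true).comp (FP.cons true)))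
    refine ((FP.cons false).comp (FP.pair (FP.zs h4)
      ((FP.cons true).comp (FP.cons true)))).congr (fun a => ?_)
    rfl
  · have hpos : 0 < 2 ^ (a.length + 4) := by positivity
    simp only [eval_add, eval_mul, eval_X, eval_ofNat]
    rcases Nat.lt_or_ge i (2 ^ (a.length + 4)) with h1 | h1
    · rw [hstep a i (by omega), List.length_cons, pr_length,
        (counter (a.length + 4) i (by omega)).1]
      have := (hGd a i).len
      omega
    · have : i = 2 ^ (a.length + 4) - 1 + 1 := by omega
      rw [this, hlast, List.length_cons, pr_length, List.length_replicate]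
      have := (hGd a (2 ^ (a.length + 4) - 1)).len
      omega
  · have hpos : 0 < 2 ^ (a.length + 4) := by positivity
    rw [hstep a i (by omega)]
    simp
  · show ((lst fi gi)^[2 ^ (a.length + 4) - 1 + 1]
      (false :: pr (List.replicate (a.length + 4) false) (true :: true :: a))).head? = some true
    rw [hlast]
    rfl
  · show a ∈ DD fi gi ↔ ((sn ((lst fi gi)^[2 ^ (a.length + 4) - 1 + 1]
      (false :: pr (List.replicate (a.length + 4) false) (true :: true :: a))).tail).isEmpty) = true
    rw [hlast, List.tail_cons, sn_pr, List.isEmpty_iff]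
    constructor
    · rintro ⟨n, hn⟩
      have h1 := fixed_of_bound (back fi gi) (true :: true :: a) [] (a.length + 2) n
        (fun j => (hGd a j).len) hn rfl
      have e1 : 2 ^ (a.length + 4) = 2 ^ (a.length + 2 + 1) + 2 ^ (a.length + 2 + 1) := by
        rw [show a.length + 4 = (a.length + 2 + 1) + 1 from rfl, pow_succ 2 (a.length + 2 + 1)]
        omega
      have hpos : 0 < 2 ^ (a.length + 2 + 1) := by positivity
      obtain ⟨d, hd⟩ : ∃ d, 2 ^ (a.length + 4) - 1 = d + 2 ^ (a.length + 2 + 1) :=
        ⟨2 ^ (a.length + 2 + 1) - 1, by omega⟩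
      rw [hd, Function.iterate_add_apply, h1, iter_fix back_nil]
    · intro h; exact ⟨_, h⟩

/-- P = PSPACE implies that equivalent sets are p-isomorphic -/
theorem iso_of_pspace (H : ∀ L, InPSPACE L → InP L) (A B : Set (List Bool))
    (h : LNEquivalent A B) : PIsomorphic A B := by
  obtain ⟨f, g, ⟨⟨pf, rf⟩, lf, jf, fi, pfi, hf, hf'⟩, ⟨⟨pg, rg⟩, lg, jg, gi, pgi, hg, hg'⟩⟩ := h
  have Pf : FP f := MP_0532f7_lc.PolyTime.fp pf
  have Pg : FP g := MP_0532f7_lc.PolyTime.fp pg
  have Pfi : FP fi := MP_0532f7_lc.PolyTime.fp pfi
  have Pgi : FP gi := MP_0532f7_lc.PolyTime.fp pgi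
  obtain ⟨d, pd, hd⟩ := H _ (DD_pspace Pfi Pgi hf hg hf' hg' lf lg)
  have Pd : FP d := MP_0532f7_lc.PolyTime.fp pd
  -- facts on chains
  have fA : ∀ a, a ∈ DD fi gi → a ∈ Set.range g := by
    rintro a ⟨n, hn⟩
    by_contra hr
    cases n with
    | zero => simp at hn
    | succ n =>
      rw [Function.iterate_succ_apply, back_A' (hg' a hr), iter_fix back_false] at hn
      simp at hn
  have fB : ∀ b, g b ∈ DD fi gi ↔ ∃ n, (back fi gi)^[n] (true :: false :: b) = [] := by
    intro b
    constructor
    · rintro ⟨n, hn⟩
      cases n with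
      | zero => simp at hn
      | succ n =>
        rw [Function.iterate_succ_apply, back_A hg] at hn
        exact ⟨n, hn⟩
    · rintro ⟨n, hn⟩
      exact ⟨n + 1, by rw [Function.iterate_succ_apply, back_A hg]; exact hn⟩
  have fC : ∀ b, g b ∉ DD fi gi → b ∈ Set.range f := by
    intro b hb
    by_contra hr
    apply hb
    rw [fB]
    exact ⟨1, back_B' (gi := gi) (hf' b hr)⟩
  have fD : ∀ a, g (f a) ∈ DD fi gi ↔ a ∈ DD fi gi := by
    intro a
    rw [fB]
    constructor
    · rintro ⟨n, hn⟩
      cases n with
      | zero => simp at hn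
      | succ n =>
        rw [Function.iterate_succ_apply, back_B hf] at hn
        exact ⟨n, hn⟩
    · rintro ⟨n, hn⟩
      exact ⟨n + 1, by rw [Function.iterate_succ_apply, back_B hf]; exact hn⟩
  refine ⟨fun a => if decide (d a = [true]) = true then (gi a).tail else f a,
    fun b => if decide (d (g b) = [true]) = true then g b else (fi b).tail,
    (FP.ite (FPb.eq Pd (FP.const _)) (FP.tail.comp Pgi) Pf).polyTime,
    (FP.ite (FPb.eq (Pd.comp Pg) (FP.const _)) Pg (FP.tail.comp Pfi)).polyTime, ?_, ?_, ?_⟩
  · intro a
    by_cases ha : a ∈ DD fi gi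
    · obtain ⟨b, rfl⟩ := fA a ha
      have e : d (g b) = [true] := (hd _).mp ha
      simp [e, hg]
    · have e : ¬ (d a = [true]) := fun h => ha ((hd _).mpr h)
      have e2 : ¬ (d (g (f a)) = [true]) := fun h => ha ((fD a).mp ((hd _).mpr h))
      simp [e, e2, hf]
  · intro b
    by_cases hb : g b ∈ DD fi gi
    · have e : d (g b) = [true] := (hd _).mp hb
      simp [e, hg]
    · have e : ¬ (d (g b) = [true]) := fun h => hb ((hd _).mpr h)
      obtain ⟨a, rfl⟩ := fC b hb
      have e2 : ¬ (d a = [true]) := fun h => hb ((fD a).mpr ((hd _).mpr h))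
      simp [e, hf, e2]
  · intro a
    by_cases ha : a ∈ DD fi gi
    · obtain ⟨b, rfl⟩ := fA a ha
      have e : d (g b) = [true] := (hd _).mp ha
      simp only [e, decide_true, if_true, hg, List.tail_cons]
      exact (rg b).symm
    · have e : ¬ (d a = [true]) := fun h => ha ((hd _).mpr h)
      simp only [e, decide_false, Bool.false_eq_true, if_false]
      exact rf a

end Pool.Agent.Work.MP_88f784_lc
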