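import Mathlib
import Pool.Agent.Work.MP_88f784_lc.Defs
import Pool.Agent.Work.MP_88f784_lc.Base

/-!
The two reductions built from a reversible machine.
-/

namespace Pool.Agent.Work.MP_88f784_lc

open Pool.Agent.Work.MP_0532f7_lc

/-- a machine with forward map `F`, backward map `B`, and tests for initial, final, rejecting -/
structure Mach where
  F : List Bool → List Bool
  B : List Bool → List Bool
  ini : List Bool → Bool
  fin : List Bool → Bool
  rej : List Bool → Bool
  hF : FP F
  hB : FP B
  hini : FPb ini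
  hfin : FPb fin
  hrej : FPb rej

namespace Mach

variable (M : Mach)

/-- `z` has a machine predecessor -/
def isE (z : List Bool) : Bool :=
  (!ty z && !M.ini z && !M.fin (M.B z) && !ty (M.B z)) &&
    (decide (M.F (M.B z) = z) && lenEq (M.B z) z)

theorem FPb.isE : FPb M.isE := by
  refine FPb.and (FPb.and (FPb.and (FPb.and (FPb.ty FP.id).not M.hini.not)
    (M.hfin.comp M.hB).not) (FPb.ty M.hB).not) (FPb.and (FPb.eq (M.hF.comp M.hB) FP.id)
    (FPb.lenEq M.hB FP.id))

theorem isE_iff (z : List Bool) : M.isE z = true ↔ ty z = false ∧ M.ini z = false ∧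
    M.fin (M.B z) = false ∧ ty (M.B z) = false ∧ M.F (M.B z) = z ∧ (M.B z).length = z.length := by
  unfold isE
  simp only [Bool.and_eq_true, Bool.not_eq_true', decide_eq_true_eq, lenEq_iff]
  tauto

/-- the reduction `g` -/
def gg (z : List Bool) : List Bool := if M.isE z = true then M.B z else t z

theorem FP.gg : FP M.gg := FP.ite (FPb.isE M) M.hB FP.t

/-- the answer of the inversion algorithm of `g` -/
def gi (y : List Bool) : List Bool :=
  if (!ty y) = true then
    (if (M.isE (M.F y) && decide (M.B (M.F y) = y)) = true then true :: M.F y else [])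
  else (if (decide (t (ut y) = y) && !M.isE (ut y)) = true then true :: ut y else [])

theorem FP.gi : FP M.gi := by
  refine FP.ite (FPb.ty FP.id).not (FP.ite (FPb.and ((FPb.isE M).comp M.hF)
    (FPb.eq (M.hB.comp M.hF) FP.id)) ((FP.cons true).comp M.hF) FP.nil)
    (FP.ite (FPb.and (FPb.eq (FP.t.comp FP.ut) FP.id) ((FPb.isE M).comp FP.ut).not)
    ((FP.cons true).comp FP.ut) FP.nil)

theorem gi_gg (z : List Bool) : M.gi (M.gg z) = true :: z := by
  by_cases h : M.isE z = true
  · have h' := h
    rw [isE_iff] at h'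
    obtain ⟨_, _, _, h4, h5, _⟩ := h'
    have e : M.gg z = M.B z := by unfold gg; rw [if_pos h]
    rw [e]
    unfold gi
    rw [h4, h5, h]
    simp
  · have e : M.gg z = t z := by unfold gg; rw [if_neg h]
    rw [e]
    unfold gi
    rw [ty_t, ut_t]
    simp [h]

theorem gi_range (y : List Bool) (hy : y ∉ Set.range M.gg) : M.gi y = [] := by
  unfold gi
  by_cases h1 : ty y = false
  · rw [if_pos (by rw [h1]; rfl)]
    split_ifs with h2
    · exfalso
      rw [Bool.and_eq_true, decide_eq_true_eq] at h2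
      apply hy
      refine ⟨M.F y, ?_⟩
      unfold gg
      rw [if_pos h2.1, h2.2]
    · rfl
  · rw [if_neg (by simpa using h1)]
    split_ifs with h2
    · exfalso
      rw [Bool.and_eq_true, decide_eq_true_eq, Bool.not_eq_true'] at h2
      apply hy
      refine ⟨ut y, ?_⟩
      unfold gg
      rw [if_neg (by rw [h2.2]; simp), h2.1]
    · rfl

theorem gg_inj : Function.Injective M.gg := by
  intro a b h
  have := M.gi_gg a
  rw [h, M.gi_gg b] at this
  exact (List.cons.inj this).2.symm

theorem gg_length (z : List Bool) : z.length ≤ (M.gg z).length := by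
  unfold gg
  split_ifs with h
  · rw [isE_iff] at h; exact h.2.2.2.2.2.ge
  · exact (lt_t z).le

/-- the root of `z` is a rejecting final word -/
def inR (z : List Bool) : Bool := !ty (root z) && (M.fin (root z) && M.rej (root z))

theorem FPb.inR : FPb M.inR :=
  FPb.and (FPb.ty FP.root).not (FPb.and (M.hfin.comp FP.root) (M.hrej.comp FP.root))

theorem inR_t (z : List Bool) : M.inR (t z) = M.inR z := by unfold inR; rw [root_t]

/-- the reduction `f` -/
def ff (z : List Bool) : List Bool := if M.inR z = true then t z else z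

theorem FP.ff : FP M.ff := FP.ite (FPb.inR M) FP.t FP.id

/-- the answer of the inversion algorithm of `f` -/
def fi (y : List Bool) : List Bool :=
  if M.inR y = true then (if decide (t (ut y) = y) = true then true :: ut y else [])
  else true :: y

theorem FP.fi : FP M.fi :=
  FP.ite (FPb.inR M) (FP.ite (FPb.eq (FP.t.comp FP.ut) FP.id) ((FP.cons true).comp FP.ut) FP.nil)
    (FP.cons true)

theorem fi_ff (z : List Bool) : M.fi (M.ff z) = true :: z := by
  by_cases h : M.inR z = true
  · have e : M.ff z = t z := by unfold ff; rw [if_pos h]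
    rw [e]
    unfold fi
    rw [inR_t, h, ut_t]
    simp
  · have e : M.ff z = z := by unfold ff; rw [if_neg h]
    rw [e]
    unfold fi
    rw [if_neg h]

theorem fi_range (y : List Bool) (hy : y ∉ Set.range M.ff) : M.fi y = [] := by
  unfold fi
  by_cases h : M.inR y = true
  · rw [if_pos h]
    split_ifs with h2
    · exfalso
      rw [decide_eq_true_eq] at h2
      apply hy
      refine ⟨ut y, ?_⟩
      unfold ff
      have h3 : M.inR (ut y) = true := by rw [← inR_t, h2]; exact h
      rw [if_pos h3, h2]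
    · rfl
  · exfalso
    apply hy
    refine ⟨y, ?_⟩
    unfold ff
    rw [if_neg h]

theorem ff_inj : Function.Injective M.ff := by
  intro a b h
  have := M.fi_ff a
  rw [h, M.fi_ff b] at this
  exact (List.cons.inj this).2.symm

theorem ff_length (z : List Bool) : z.length ≤ (M.ff z).length := by
  unfold ff
  split_ifs with h
  · exact (lt_t z).le
  · exact le_rfl

theorem root_ff (z : List Bool) : root (M.ff z) = root z := by
  unfold ff
  split_ifs
  · exact root_t z
  · rfl

/-- sets respected by the two maps are equivalent -/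
theorem equiv_of (A B : Set (List Bool)) (h1 : ∀ z, z ∈ A ↔ M.ff z ∈ B)
    (h2 : ∀ z, z ∈ B ↔ M.gg z ∈ A) : LNEquivalent A B :=
  ⟨M.ff, M.gg,
    ⟨⟨(FP.ff M).polyTime, h1⟩, M.ff_length, M.ff_inj, M.fi, (FP.fi M).polyTime, M.fi_ff,
      M.fi_range⟩,
    ⟨⟨(FP.gg M).polyTime, h2⟩, M.gg_length, M.gg_inj, M.gi, (FP.gi M).polyTime, M.gi_gg,
      M.gi_range⟩⟩

end Mach

/-- the trajectories of a machine that decides `L` -/
structure Dec (M : Mach) (L : Set (List Bool)) where
  c0 : List Bool → List Bool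
  hc0 : FP c0
  key : List Bool → List Bool
  N : List Bool → ℕ
  hN : ∀ x, 0 < N x
  hini : ∀ x, M.ini (c0 x) = true
  hini' : ∀ x i, 0 < i → i ≤ N x → M.ini (M.F^[i] (c0 x)) = false
  hfin : ∀ x i, i < N x → M.fin (M.F^[i] (c0 x)) = false
  hfin' : ∀ x, M.fin (M.F^[N x] (c0 x)) = true
  hty : ∀ x i, i ≤ N x → ty (M.F^[i] (c0 x)) = false
  hB : ∀ x i, i < N x → M.B (M.F^[i + 1] (c0 x)) = M.F^[i] (c0 x)
  hlen : ∀ x i, i ≤ N x → (M.F^[i] (c0 x)).length = (c0 x).length
  hkey : ∀ x i, i ≤ N x → key (M.F^[i] (c0 x)) = x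
  hL : ∀ x, x ∈ L ↔ M.rej (M.F^[N x] (c0 x)) = false

namespace Dec

variable {M : Mach} {L : Set (List Bool)} (D : Dec M L)

/-- the words of the chain of `x` on the side of `A` -/
def SA (x : List Bool) : Set (List Bool) :=
  {z | (∃ i, z = M.F^[i] (D.c0 x) ∧ (i < D.N x ∨ (i = D.N x ∧ x ∈ L))) ∨
    ∃ j, z = t^[j + 1] (D.c0 x)}

/-- the words of the chain of `x` on the side of `B` -/
def SB (x : List Bool) : Set (List Bool) :=
  {z | (∃ i, z = M.F^[i] (D.c0 x) ∧ i ≤ D.N x) ∨ ∃ j, z = t^[j + 1] (D.c0 x)}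

theorem ty0 (x : List Bool) : ty (D.c0 x) = false := D.hty x 0 (Nat.zero_le _)

theorem fin0 (x : List Bool) : M.fin (D.c0 x) = false := D.hfin x 0 (D.hN x)

theorem ty_iter (x : List Bool) (j : ℕ) : ty (t^[j + 1] (D.c0 x)) = true := by
  rw [Function.iterate_succ_apply', ty_t]

theorem root_tail (x : List Bool) (j : ℕ) : root (t^[j] (D.c0 x)) = D.c0 x := by
  rw [root_iter, root_of_ty (D.ty0 x)]

theorem key_SB {x z : List Bool} (h : z ∈ D.SB x) : D.key (root z) = x := by
  rcases h with ⟨i, rfl, hi⟩ | ⟨j, rfl⟩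
  · rw [root_of_ty (D.hty x i hi)]; exact D.hkey x i hi
  · rw [D.root_tail]; exact D.hkey x 0 (Nat.zero_le _)

theorem SA_sub {x z : List Bool} (h : z ∈ D.SA x) : z ∈ D.SB x := by
  rcases h with ⟨i, rfl, hi⟩ | ⟨j, rfl⟩
  · exact Or.inl ⟨i, rfl, by omega⟩
  · exact Or.inr ⟨j, rfl⟩

theorem key_SA {x z : List Bool} (h : z ∈ D.SA x) : D.key (root z) = x := D.key_SB (D.SA_sub h)

theorem inR_SA {x z : List Bool} (h : z ∈ D.SA x) : M.inR z = false := by
  unfold Mach.inR
  rcases h with ⟨i, rfl, hi⟩ | ⟨j, rfl⟩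
  · rw [root_of_ty (D.hty x i (by omega))]
    rcases hi with hi | ⟨rfl, hx⟩
    · rw [D.hfin x i hi]; simp
    · rw [(D.hL x).mp hx]; simp
  · rw [D.root_tail, D.fin0]; simp

theorem inR_SB {x z : List Bool} (h : z ∈ D.SB x) (h' : M.inR z = false) : z ∈ D.SA x := by
  rcases h with ⟨i, rfl, hi⟩ | ⟨j, rfl⟩
  · refine Or.inl ⟨i, rfl, ?_⟩
    rcases Nat.lt_or_ge i (D.N x) with h1 | h1
    · exact Or.inl h1
    · have : i = D.N x := by omega
      subst this
      refine Or.inr ⟨rfl, ?_⟩
      unfold Mach.inR at h'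
      rw [root_of_ty (D.hty x _ le_rfl), D.hty x _ le_rfl, D.hfin'] at h'
      rw [D.hL]
      simpa using h'
  · exact Or.inr ⟨j, rfl⟩

theorem inR_SB' {x z : List Bool} (h : z ∈ D.SB x) (h' : M.inR z = true) :
    z = M.F^[D.N x] (D.c0 x) := by
  rcases h with ⟨i, rfl, hi⟩ | ⟨j, rfl⟩
  · rcases Nat.lt_or_ge i (D.N x) with h1 | h1
    · exfalso
      have := D.inR_SA (x := x) (z := M.F^[i] (D.c0 x)) (Or.inl ⟨i, rfl, Or.inl h1⟩)
      rw [this] at h'; exact absurd h' (by simp)
    · have : i = D.N x := by omega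
      rw [this]
  · exfalso
    have := D.inR_SA (x := x) (z := t^[j + 1] (D.c0 x)) (Or.inr ⟨j, rfl⟩)
    rw [this] at h'; exact absurd h' (by simp)

theorem ff_iff (x z : List Bool) : z ∈ D.SA x ↔ M.ff z ∈ D.SB x := by
  constructor
  · intro h
    have : M.ff z = z := by unfold Mach.ff; rw [D.inR_SA h]; simp
    rw [this]; exact D.SA_sub h
  · intro h
    by_cases h1 : M.inR z = true
    · exfalso
      have e : M.ff z = t z := by unfold Mach.ff; rw [if_pos h1]
      rw [e] at h
      have h2 := D.inR_SB' h (by rw [Mach.inR_t]; exact h1)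
      have h3 := D.hty x _ le_rfl
      rw [← h2] at h3
      simp at h3
    · have e : M.ff z = z := by unfold Mach.ff; rw [if_neg h1]
      rw [e] at h
      exact D.inR_SB h (by simpa using h1)

theorem gg_iff (x z : List Bool) : z ∈ D.SB x ↔ M.gg z ∈ D.SA x := by
  constructor
  · rintro (⟨i, rfl, hi⟩ | ⟨j, rfl⟩)
    · cases i with
      | zero =>
        have h1 : ¬ (M.isE (D.c0 x) = true) := by
          rw [Mach.isE_iff, D.hini x]; simp
        have e : M.gg (M.F^[0] (D.c0 x)) = t (D.c0 x) := by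
          unfold Mach.gg
          rw [Function.iterate_zero, id, if_neg h1]
        rw [e]
        exact Or.inr ⟨0, rfl⟩
      | succ i =>
        have hb := D.hB x i (by omega)
        have h1 : M.isE (M.F^[i + 1] (D.c0 x)) = true := by
          rw [Mach.isE_iff, hb]
          refine ⟨D.hty x _ hi, D.hini' x _ (by omega) hi, D.hfin x i (by omega),
            D.hty x i (by omega), (Function.iterate_succ_apply' _ _ _).symm, ?_⟩
          rw [D.hlen x i (by omega), D.hlen x _ hi]
        have e : M.gg (M.F^[i + 1] (D.c0 x)) = M.F^[i] (D.c0 x) := by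
          unfold Mach.gg
          rw [if_pos h1, hb]
        rw [e]
        exact Or.inl ⟨i, rfl, Or.inl (by omega)⟩
    · have h1 : ¬ (M.isE (t^[j + 1] (D.c0 x)) = true) := by
        rw [Mach.isE_iff, D.ty_iter]; simp
      have e : M.gg (t^[j + 1] (D.c0 x)) = t^[j + 1 + 1] (D.c0 x) := by
        unfold Mach.gg
        rw [if_neg h1]
        exact (Function.iterate_succ_apply' _ _ _).symm
      rw [e]
      exact Or.inr ⟨j + 1, rfl⟩
  · intro h
    by_cases h1 : M.isE z = true
    · have e : M.gg z = M.B z := by unfold Mach.gg; rw [if_pos h1]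
      rw [e] at h
      rw [Mach.isE_iff] at h1
      obtain ⟨_, _, h2, h3, h4, _⟩ := h1
      rcases h with ⟨i, hi, hi'⟩ | ⟨j, hj⟩
      · rw [hi] at h2 h4
        have hlt : i < D.N x := by
          rcases hi' with h5 | ⟨rfl, _⟩
          · exact h5
          · rw [D.hfin' x] at h2; simp at h2
        refine Or.inl ⟨i + 1, ?_, hlt⟩
        rw [← h4]; exact (Function.iterate_succ_apply' _ _ _).symm
      · rw [hj, D.ty_iter] at h3; simp at h3
    · have e : M.gg z = t z := by unfold Mach.gg; rw [if_neg h1]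
      rw [e] at h
      rcases h with ⟨i, hi, hi'⟩ | ⟨j, hj⟩
      · have := D.hty x i (by omega)
        rw [← hi] at this
        simp at this
      · rw [Function.iterate_succ_apply'] at hj
        have := t_inj hj
        rw [this]
        cases j with
        | zero => exact Or.inl ⟨0, rfl, Nat.zero_le _⟩
        | succ j => exact Or.inr ⟨j, rfl⟩

/-- the set on the side of `A` given by a set `U` of chains -/
def AU (U : List Bool → Bool) : Set (List Bool) :=
  {z | U (D.key (root z)) = true ∧ z ∈ D.SA (D.key (root z))}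

/-- the set on the side of `B` given by a set `U` of chains -/
def BU (U : List Bool → Bool) : Set (List Bool) :=
  {z | U (D.key (root z)) = true ∧ z ∈ D.SB (D.key (root z))}

theorem AU_iff {U : List Bool → Bool} {x z : List Bool} (h : z ∈ D.SA x) :
    z ∈ D.AU U ↔ U x = true := by
  unfold AU
  rw [Set.mem_ofPred_eq, D.key_SA h]
  exact ⟨fun h => h.1, fun h' => ⟨h', h⟩⟩

theorem BU_iff {U : List Bool → Bool} {x z : List Bool} (h : z ∈ D.SB x) :
    z ∈ D.BU U ↔ U x = true := by
  unfold BU
  rw [Set.mem_ofPred_eq, D.key_SB h]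
  exact ⟨fun h => h.1, fun h' => ⟨h', h⟩⟩

theorem equiv_U (U : List Bool → Bool) : LNEquivalent (D.AU U) (D.BU U) := by
  refine M.equiv_of _ _ (fun z => ?_) (fun z => ?_)
  · unfold AU BU
    rw [Set.mem_ofPred_eq, Set.mem_ofPred_eq, M.root_ff, ← D.ff_iff]
  · constructor
    · intro h
      have h1 := (D.gg_iff _ _).mp h.2
      rw [D.AU_iff h1]; exact h.1
    · intro h
      have h1 := (D.gg_iff _ _).mpr h.2
      rw [D.BU_iff h1]; exact h.1

end Dec

end Pool.Agent.Work.MP_88f784_lc
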