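import Mathlib
import Pool.Agent.Work.MP_88f784_lc.Maps

/-!
A generic set of chains: a p-isomorphism respects all but finitely many chains.
-/

namespace Pool.Agent.Work.MP_88f784_lc

open Pool.Agent.Work.MP_0532f7_lc

theorem countable_polyTime : Countable {h : List Bool → List Bool // PolyTime h} := by
  have key : ∀ g : {h : List Bool → List Bool // PolyTime h}, ∃ c : List Bool,
      ∀ x, ∃ t, uni c x t = true :: g.1 x ∧
        ∀ t', t.length ≤ t'.length → uni c x t' = true :: g.1 x := by
    intro g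
    obtain ⟨c, P, h⟩ := uni_spec g.2
    refine ⟨c, fun x => ⟨un (P.eval x.length), (h x _).1 (by simp), fun t' ht => (h x t').1 ?_⟩⟩
    rwa [un_length] at ht
  choose c hc using key
  refine Function.Injective.countable (f := c) ?_
  intro g g' h
  apply Subtype.ext
  funext x
  obtain ⟨t1, _, h1⟩ := hc g x
  obtain ⟨t2, _, h2⟩ := hc g' x
  have e1 := h1 (t1 ++ t2) (by simp)
  have e2 := h2 (t1 ++ t2) (by simp)
  rw [h, e2] at e1
  exact (List.cons.inj e1).2.symm

namespace Dec

variable {M : Mach} {L : Set (List Bool)} (D : Dec M L)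

/-- the chains touched by a violation of `h` -/
def touched (h : List Bool → List Bool) : Set (List Bool) :=
  {x | ∃ z, ¬ (z ∈ D.SA x ↔ h z ∈ D.SB x)}

/-- the sets of chains for which `h` fails to be a reduction -/
def bad (h : List Bool → List Bool) : Set (List Bool → Bool) :=
  {U | ∃ z, ¬ (z ∈ D.AU U ↔ h z ∈ D.BU U)}

theorem AU_congr {U V : List Bool → Bool} {z : List Bool}
    (h : z ∈ D.SA (D.key (root z)) → U (D.key (root z)) = V (D.key (root z))) :
    z ∈ D.AU U ↔ z ∈ D.AU V := by
  unfold AU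
  rw [Set.mem_ofPred_eq, Set.mem_ofPred_eq]
  constructor
  · rintro ⟨h1, h2⟩; exact ⟨h h2 ▸ h1, h2⟩
  · rintro ⟨h1, h2⟩; exact ⟨(h h2).symm ▸ h1, h2⟩

theorem BU_congr {U V : List Bool → Bool} {z : List Bool}
    (h : z ∈ D.SB (D.key (root z)) → U (D.key (root z)) = V (D.key (root z))) :
    z ∈ D.BU U ↔ z ∈ D.BU V := by
  unfold BU
  rw [Set.mem_ofPred_eq, Set.mem_ofPred_eq]
  constructor
  · rintro ⟨h1, h2⟩; exact ⟨h h2 ▸ h1, h2⟩
  · rintro ⟨h1, h2⟩; exact ⟨(h h2).symm ▸ h1, h2⟩

theorem isOpen_bad (h : List Bool → List Bool) : IsOpen (D.bad h) := by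
  rw [isOpen_iff_mem_nhds]
  rintro U ⟨z, hz⟩
  have h1 : {V : List Bool → Bool | V (D.key (root z)) = U (D.key (root z))} ∈ nhds U :=
    (continuous_apply (D.key (root z))).continuousAt.preimage_mem_nhds
      (show {U (D.key (root z))} ∈ nhds (U (D.key (root z))) from
        (isOpen_discrete _).mem_nhds rfl)
  have h2 : {V : List Bool → Bool | V (D.key (root (h z))) = U (D.key (root (h z)))} ∈ nhds U :=
    (continuous_apply (D.key (root (h z)))).continuousAt.preimage_mem_nhds
      (show {U (D.key (root (h z)))} ∈ nhds (U (D.key (root (h z)))) from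
        (isOpen_discrete _).mem_nhds rfl)
  filter_upwards [h1, h2] with V hV1 hV2
  refine ⟨z, ?_⟩
  rw [D.AU_congr (U := V) (V := U) (fun _ => hV1), D.BU_congr (U := V) (V := U) (fun _ => hV2)]
  exact hz

theorem dense_bad {h : List Bool → List Bool} (hT : (D.touched h).Infinite) :
    Dense (D.bad h) := by
  classical
  intro U
  rw [mem_closure_iff_nhds]
  intro W hW
  rw [nhds_pi, Filter.mem_pi] at hW
  obtain ⟨I, hI, s, hs, hsub⟩ := hW
  obtain ⟨x, ⟨z, hz⟩, hxI⟩ := hT.exists_notMem_finite hI
  have hmem : ∀ b : Bool, Function.update U x b ∈ W := by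
    intro b
    apply hsub
    intro i hi
    have : i ≠ x := fun e => hxI (e ▸ hi)
    rw [Function.update_of_ne this]
    exact mem_of_mem_nhds (hs i)
  by_cases h1 : z ∈ D.SA x
  · have h2 : h z ∉ D.SB x := fun h2 => hz ⟨fun _ => h2, fun _ => h1⟩
    refine ⟨Function.update U x (decide (h z ∉ D.BU U)), hmem _, z, ?_⟩
    rw [D.AU_iff h1, Function.update_self]
    have e : h z ∈ D.BU (Function.update U x (decide (h z ∉ D.BU U))) ↔ h z ∈ D.BU U := by
      apply D.BU_congr
      intro h3
      have : D.key (root (h z)) ≠ x := fun e => h2 (e ▸ h3)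
      rw [Function.update_of_ne this]
    rw [e, decide_eq_true_eq]
    tauto
  · have h2 : h z ∈ D.SB x := by
      by_contra h2
      exact hz ⟨fun h => absurd h h1, fun h => absurd h h2⟩
    refine ⟨Function.update U x (decide (z ∉ D.AU U)), hmem _, z, ?_⟩
    rw [D.BU_iff h2, Function.update_self]
    have e : z ∈ D.AU (Function.update U x (decide (z ∉ D.AU U))) ↔ z ∈ D.AU U := by
      apply D.AU_congr
      intro h3
      have : D.key (root z) ≠ x := fun e => h1 (e ▸ h3)
      rw [Function.update_of_ne this]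
    rw [e, decide_eq_true_eq]
    tauto

/-- if equivalent sets are p-isomorphic, some p-isomorphism respects almost all chains -/
theorem exists_iso (Q : ∀ A B : Set (List Bool), LNEquivalent A B → PIsomorphic A B) :
    ∃ h k : List Bool → List Bool, PolyTime h ∧ PolyTime k ∧ (∀ x, k (h x) = x) ∧
      (∀ y, h (k y) = y) ∧ (D.touched h).Finite := by
  classical
  have hc := countable_polyTime
  have hd := dense_iInter_of_isOpen
    (f := fun h : {h : List Bool → List Bool // PolyTime h} =>
      if (D.touched h.1).Infinite then D.bad h.1 else Set.univ)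
    (fun h => by
      split_ifs
      · exact D.isOpen_bad h.1
      · exact isOpen_univ)
    (fun h => by
      split_ifs with h1
      · exact D.dense_bad h1
      · exact dense_univ)
  obtain ⟨U, hU⟩ := hd.nonempty
  obtain ⟨h, k, hh, hk, h1, h2, h3⟩ := Q _ _ (D.equiv_U U)
  refine ⟨h, k, hh, hk, h1, h2, ?_⟩
  by_contra h4
  have h4 : (D.touched h).Infinite := h4
  have h5 := Set.mem_iInter.mp hU ⟨h, hh⟩
  dsimp only at h5
  rw [if_pos h4] at h5
  obtain ⟨z, hz⟩ := h5
  exact hz (h3 z)

end Dec

end Pool.Agent.Work.MP_88f784_lc
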