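import Mathlib
import Pool.Agent.Work.MP_88f784_lc.Generic

/-!
The net flow across the end of the computation: a p-isomorphism respecting almost all chains
decides the language.
-/

namespace Pool.Agent.Work.MP_88f784_lc

open Pool.Agent.Work.MP_0532f7_lc Polynomial

theorem poly_le (p : Polynomial ℕ) : ∃ j, ∀ n, p.eval n ≤ j * (n + 1) ^ j := by
  induction p using Polynomial.induction_on' with
  | add p q hp hq =>
    obtain ⟨i, hi⟩ := hp
    obtain ⟨j, hj⟩ := hq
    refine ⟨i + j, fun n => ?_⟩
    rw [eval_add, add_mul]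
    have h1 : (n + 1) ^ i ≤ (n + 1) ^ (i + j) := Nat.pow_le_pow_right (by omega) (by omega)
    have h2 : (n + 1) ^ j ≤ (n + 1) ^ (i + j) := Nat.pow_le_pow_right (by omega) (by omega)
    exact Nat.add_le_add ((hi n).trans (Nat.mul_le_mul_left _ h1))
      ((hj n).trans (Nat.mul_le_mul_left _ h2))
  | monomial d c =>
    refine ⟨d + c, fun n => ?_⟩
    rw [eval_monomial]
    have h1 : n ^ d ≤ (n + 1) ^ (d + c) :=
      (Nat.pow_le_pow_left (Nat.le_succ n) d).trans (Nat.pow_le_pow_right (by omega) (by omega))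
    exact Nat.mul_le_mul (by omega) h1

theorem t_growth (y : List Bool) (j : ℕ) :
    (y.length + 1) ^ 2 ^ j ≤ (t^[j] y).length + 1 ∧
    3 ^ 2 ^ j ≤ (t^[j + 1] y).length + 1 := by
  have step : ∀ z : List Bool, (z.length + 1) ^ 2 ≤ (t z).length + 1 := by
    intro z; rw [t_length]; nlinarith
  have one : ∀ (j : ℕ) (z : List Bool), (z.length + 1) ^ 2 ^ j ≤ (t^[j] z).length + 1 := by
    intro j
    induction j with
    | zero => intro z; simp
    | succ j ih =>
      intro z
      rw [Function.iterate_succ_apply]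
      refine le_trans ?_ (ih (t z))
      rw [pow_succ, mul_comm (2 ^ j) 2, pow_mul]
      exact Nat.pow_le_pow_left (step z) _
  refine ⟨one j y, ?_⟩
  rw [Function.iterate_succ_apply]
  refine le_trans ?_ (one j (t y))
  apply Nat.pow_le_pow_left
  rw [t_length]; omega

/-- only boundedly many tail words are short -/
theorem exists_J (q : Polynomial ℕ) : ∃ J : ℕ, ∀ (y : List Bool) (j : ℕ), J ≤ j →
    q.eval y.length < (t^[j + 1] y).length := by
  obtain ⟨d, hd⟩ := poly_le q
  refine ⟨2 * d + 2, fun y j hj => ?_⟩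
  refine lt_of_le_of_lt (hd y.length) ?_
  have h1 := (t_growth y (j + 1)).1
  have h2 := (t_growth y j).2
  have h4 : 2 * d + 2 < 2 ^ j := lt_of_le_of_lt hj Nat.lt_two_pow_self
  -- from the product of both bounds
  have h3 : d * (y.length + 1) ^ d + 1 < (t^[j + 1] y).length + 1 := by
    by_contra hcon
    have hc : (t^[j + 1] y).length + 1 ≤ d * (y.length + 1) ^ d + 1 := by omega
    set T := (t^[j + 1] y).length + 1 with hT
    have a1 : (y.length + 1) ^ d * (y.length + 1) ^ d ≤ T := by
      rw [← pow_add]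
      refine le_trans (Nat.pow_le_pow_right (by omega) ?_) h1
      rw [pow_succ]; omega
    have a2 : (d + 1) * (d + 1) < T := by
      have b1 : (d + 1) ≤ 2 ^ d := Nat.lt_two_pow_self
      have b2 : (d + 1) * (d + 1) ≤ 2 ^ (2 * d + 2) := by
        calc (d + 1) * (d + 1) ≤ 2 ^ d * 2 ^ d := Nat.mul_le_mul b1 b1
          _ = 2 ^ (d + d) := (pow_add 2 d d).symm
          _ ≤ 2 ^ (2 * d + 2) := Nat.pow_le_pow_right (by omega) (by omega)
      have b3 : 2 ^ (2 * d + 2) < 3 ^ 2 ^ j :=
        calc 2 ^ (2 * d + 2) < 2 ^ 2 ^ j := Nat.pow_lt_pow_right (by omega) h4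
          _ ≤ 3 ^ 2 ^ j := Nat.pow_le_pow_left (by omega) _
      omega
    -- T ≤ d X + 1 with X² ≤ T and (d+1)² < T
    set Y := (y.length + 1) ^ d with hY
    have hY1 : 1 ≤ Y := Nat.one_le_pow _ _ (by omega)
    have a3 : T ≤ (d + 1) * Y := by nlinarith
    have a4 : T * T ≤ ((d + 1) * (d + 1)) * (Y * Y) := by
      calc T * T ≤ ((d + 1) * Y) * ((d + 1) * Y) := Nat.mul_le_mul a3 a3
        _ = ((d + 1) * (d + 1)) * (Y * Y) := by ring
    have a5 : ((d + 1) * (d + 1)) * (Y * Y) < T * T := by
      have hT0 : 0 < T := by omega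
      calc ((d + 1) * (d + 1)) * (Y * Y) ≤ ((d + 1) * (d + 1)) * T := Nat.mul_le_mul_left _ a1
        _ < T * T := (Nat.mul_lt_mul_right hT0).mpr a2
    omega
  omega

theorem finite_patch {L : Set (List Bool)} {T : Set (List Bool)} (hT : T.Finite) :
    ∀ p : List Bool → Bool, FPb p → (∀ x, x ∉ T → (x ∈ L ↔ p x = true)) →
    ∃ p' : List Bool → Bool, FPb p' ∧ ∀ x, x ∈ L ↔ p' x = true := by
  classical
  induction T, hT using Set.Finite.induction_on with
  | empty => intro p hp h; exact ⟨p, hp, fun x => h x (by simp)⟩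
  | @insert a T _ _ ih =>
    intro p hp h
    refine ih (fun x => if decide (x = a) = true then decide (a ∈ L) else p x)
      (FPb.ite (FPb.eq FP.id (FP.const a)) (FPb.const _) hp) (fun x hx => ?_)
    by_cases hxa : x = a
    · subst hxa; simp
    · simp only [hxa, decide_false, Bool.false_eq_true, if_false]
      exact h x (by
        intro h'
        rcases h' with h' | h'
        · exact hxa h'
        · exact hx h')

namespace Dec

variable {M : Mach} {L : Set (List Bool)} (D : Dec M L)

/-- parity of the number of crossing tail words -/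
def par (h k : List Bool → List Bool) : ℕ → List Bool → Bool
  | 0, _ => false
  | J + 1, x => Bool.xor (par h k J x)
      (Bool.xor (ty (k (t^[J + 1] (D.c0 x)))) (ty (h (t^[J + 1] (D.c0 x)))))

theorem FPb.xor {c d : List Bool → Bool} (hc : FPb c) (hd : FPb d) :
    FPb (fun x => Bool.xor (c x) (d x)) := by
  refine (FPb.ite hc hd.not hd).congr (fun x => ?_)
  cases c x <;> simp

theorem FP.titer (j : ℕ) : FP (t^[j]) := by
  induction j with
  | zero => exact FP.id
  | succ j ih =>
    refine (FP.t.comp ih).congr (fun x => ?_)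
    exact (Function.iterate_succ_apply' t j x).symm

theorem FPb.par {h k : List Bool → List Bool} (hh : FP h) (hk : FP k) (J : ℕ) :
    FPb (D.par h k J) := by
  induction J with
  | zero => exact FPb.const false
  | succ J ih =>
    have ht : FP (fun x => t^[J + 1] (D.c0 x)) := (FP.titer (J + 1)).comp D.hc0
    exact FPb.xor ih (FPb.xor (FPb.ty (hk.comp ht)) (FPb.ty (hh.comp ht)))

/-- numbers of crossing tail words -/
theorem par_count (h k : List Bool → List Bool) (x : List Bool) (J : ℕ) :
    D.par h k J x = decide (Odd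
      (((Finset.range J).filter (fun j => ty (k (t^[j + 1] (D.c0 x))) = false)).card +
       ((Finset.range J).filter (fun j => ty (h (t^[j + 1] (D.c0 x))) = false)).card)) := by
  induction J with
  | zero => simp [par]
  | succ J ih =>
    rw [par, ih, Finset.range_add_one, Finset.filter_insert, Finset.filter_insert]
    have hn : ∀ p : ℕ → Prop, ∀ [DecidablePred p], J ∉ (Finset.range J).filter p := by
      intro p _ hm
      have := (Finset.mem_filter.mp hm).1
      simp at this
    generalize ha : ((Finset.range J).filter (fun j => ty (k (t^[j + 1] (D.c0 x))) = false)) = a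
    generalize hb : ((Finset.range J).filter (fun j => ty (h (t^[j + 1] (D.c0 x))) = false)) = b
    have hna : J ∉ a := ha ▸ hn _
    have hnb : J ∉ b := hb ▸ hn _
    cases h1 : ty (k (t^[J + 1] (D.c0 x))) <;> cases h2 : ty (h (t^[J + 1] (D.c0 x))) <;>
      simp only [if_true, Bool.true_eq_false, if_false, Finset.card_insert_of_notMem hna,
        Finset.card_insert_of_notMem hnb, Bool.xor_false, Bool.xor_true,
        Bool.not_false, Bool.not_true] <;>
      rcases Nat.even_or_odd (a.card + b.card) with h3 | h3 <;>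
      (rw [Bool.eq_iff_iff]; simp only [decide_eq_true_eq, Bool.not_eq_true', decide_eq_false_iff_not];
       simp only [Nat.odd_iff, Nat.even_iff] at *; omega)

theorem card_split (S : Finset (List Bool)) (p : List Bool → Bool) :
    (S.filter (fun z => p z = true)).card + (S.filter (fun z => p z = false)).card = S.card := by
  rw [← Finset.card_union_of_disjoint, ← Finset.filter_or]
  · congr 1
    apply Finset.filter_true_of_mem
    intro z _
    cases p z <;> simp
  · rw [Finset.disjoint_filter]
    intro z _ h; rw [h]; simp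

/-- the net flow tells whether the word is in the language -/
theorem flow {h k : List Bool → List Bool} (hkh : ∀ x, k (h x) = x) (hhk : ∀ y, h (k y) = y)
    {x : List Bool} (hx : x ∉ D.touched h) (q : Polynomial ℕ)
    (hq : ∀ z, (h z).length ≤ q.eval z.length) (kq : ∀ z, (k z).length ≤ q.eval z.length)
    (J : ℕ) (hJ : ∀ j, J ≤ j → q.eval (D.c0 x).length < (t^[j + 1] (D.c0 x)).length) :
    x ∈ L ↔ D.par h k J x = false := by
  classical
  have hx' : ∀ z, z ∈ D.SA x ↔ h z ∈ D.SB x := by
    intro z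
    by_contra hz
    exact hx ⟨z, hz⟩
  have hx'' : ∀ y, y ∈ D.SB x ↔ k y ∈ D.SA x := fun y => by rw [hx', hhk]
  obtain ⟨c, hc⟩ : ∃ c, c = D.c0 x := ⟨_, rfl⟩
  obtain ⟨PB, hPB⟩ : ∃ PB : Finset (List Bool), PB =
    (Finset.range (D.N x + 1)).image (fun i => M.F^[i] (D.c0 x)) := ⟨_, rfl⟩
  obtain ⟨PA, hPA⟩ : ∃ PA : Finset (List Bool), PA = PB.filter (fun z => z ∈ D.SA x) := ⟨_, rfl⟩
  have memB : ∀ z, z ∈ PB ↔ z ∈ D.SB x ∧ ty z = false := by
    intro z
    rw [hPB, Finset.mem_image]
    constructor
    · rintro ⟨i, hi, rfl⟩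
      rw [Finset.mem_range] at hi
      exact ⟨Or.inl ⟨i, rfl, by omega⟩, D.hty x i (by omega)⟩
    · rintro ⟨⟨i, rfl, hi⟩ | ⟨j, rfl⟩, hz⟩
      · exact ⟨i, Finset.mem_range.mpr (by omega), rfl⟩
      · rw [D.ty_iter] at hz; simp at hz
  have memA : ∀ z, z ∈ PA ↔ z ∈ D.SA x ∧ ty z = false := by
    intro z
    rw [hPA, Finset.mem_filter, memB]
    constructor
    · rintro ⟨⟨_, h2⟩, h3⟩; exact ⟨h3, h2⟩
    · rintro ⟨h1, h2⟩; exact ⟨⟨D.SA_sub h1, h2⟩, h1⟩
  have lenB : ∀ z ∈ PB, z.length = (D.c0 x).length := by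
    intro z hz
    rw [hPB, Finset.mem_image] at hz
    obtain ⟨i, hi, rfl⟩ := hz
    rw [Finset.mem_range] at hi
    exact D.hlen x i (by omega)
  have tail_lt : ∀ j, (t^[j + 1] (D.c0 x)).length ≤ q.eval (D.c0 x).length → j < J := by
    intro j hj
    by_contra hcon
    have := hJ j (by omega)
    omega
  -- tail words hit from the side of `A`
  have b1 : ((Finset.range J).filter (fun j => ty (k (t^[j + 1] (D.c0 x))) = false)).card =
      (PA.filter (fun z => ty (h z) = true)).card := by
    refine Finset.card_bij (fun j _ => k (t^[j + 1] (D.c0 x))) ?_ ?_ ?_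
    · intro j hj
      rw [Finset.mem_filter] at hj
      rw [Finset.mem_filter, memA, hhk]
      exact ⟨⟨(hx'' _).mp (Or.inr ⟨j, rfl⟩), hj.2⟩, D.ty_iter x j⟩
    · intro i _ j _ hij
      have := congrArg h hij
      simp only [hhk] at this
      have := iter_t_inj (D.ty0 x) this
      omega
    · intro z hz
      rw [Finset.mem_filter, memA] at hz
      obtain ⟨⟨h1, h2⟩, h3⟩ := hz
      have h4 := (hx' z).mp h1
      rcases h4 with ⟨i, hi, hi'⟩ | ⟨j, hj⟩
      · rw [hi, D.hty x i hi'] at h3; simp at h3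
      · have h5 := hq z
        rw [lenB z ((memB z).mpr ⟨D.SA_sub h1, h2⟩), hj] at h5
        refine ⟨j, ?_, ?_⟩
        · rw [Finset.mem_filter, Finset.mem_range, ← hj, hkh]
          exact ⟨tail_lt j h5, h2⟩
        · rw [← hj, hkh]
  have b2 : ((Finset.range J).filter (fun j => ty (h (t^[j + 1] (D.c0 x))) = false)).card =
      (PB.filter (fun z => ty (k z) = true)).card := by
    refine Finset.card_bij (fun j _ => h (t^[j + 1] (D.c0 x))) ?_ ?_ ?_
    · intro j hj
      rw [Finset.mem_filter] at hj
      rw [Finset.mem_filter, memB, hkh]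
      exact ⟨⟨(hx' _).mp (Or.inr ⟨j, rfl⟩), hj.2⟩, D.ty_iter x j⟩
    · intro i _ j _ hij
      have := congrArg k hij
      simp only [hkh] at this
      have := iter_t_inj (D.ty0 x) this
      omega
    · intro z hz
      rw [Finset.mem_filter, memB] at hz
      obtain ⟨⟨h1, h2⟩, h3⟩ := hz
      have h4 := (hx'' z).mp h1
      rcases h4 with ⟨i, hi, hi'⟩ | ⟨j, hj⟩
      · rw [hi, D.hty x i (by omega)] at h3; simp at h3
      · have h5 := kq z
        rw [lenB z ((memB z).mpr ⟨h1, h2⟩), hj] at h5
        refine ⟨j, ?_, ?_⟩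
        · rw [Finset.mem_filter, Finset.mem_range, ← hj, hhk]
          exact ⟨tail_lt j h5, h2⟩
        · rw [← hj, hhk]
  have b3 : (PA.filter (fun z => ty (h z) = false)).card =
      (PB.filter (fun z => ty (k z) = false)).card := by
    refine Finset.card_bij (fun z _ => h z) ?_ ?_ ?_
    · intro z hz
      rw [Finset.mem_filter, memA] at hz
      rw [Finset.mem_filter, memB, hkh]
      exact ⟨⟨(hx' z).mp hz.1.1, hz.2⟩, hz.1.2⟩
    · intro a _ b _ hab
      have := congrArg k hab
      simpa only [hkh] using this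
    · intro y hy
      rw [Finset.mem_filter, memB] at hy
      refine ⟨k y, ?_, hhk y⟩
      rw [Finset.mem_filter, memA, hhk]
      exact ⟨⟨(hx'' y).mp hy.1.1, hy.2⟩, hy.1.2⟩
  have s1 := card_split PA (fun z => ty (h z))
  have s2 := card_split PB (fun z => ty (k z))
  have hpar := D.par_count h k x J
  rw [b1, b2] at hpar
  rw [hpar, decide_eq_false_iff_not, Nat.not_odd_iff_even]
  by_cases hL : x ∈ L
  · have e : PA = PB := by
      rw [hPA]
      apply Finset.filter_true_of_mem
      intro z hz
      rw [hPB, Finset.mem_image] at hz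
      obtain ⟨i, hi, rfl⟩ := hz
      rw [Finset.mem_range] at hi
      exact Or.inl ⟨i, rfl, by
        rcases Nat.lt_or_ge i (D.N x) with h1 | h1
        · exact Or.inl h1
        · exact Or.inr ⟨by omega, hL⟩⟩
    have e2 := congrArg Finset.card e
    simp only [hL, true_iff]
    rw [Nat.even_iff]; omega
  · have hN : M.F^[D.N x] (D.c0 x) ∉ PA := by
      rw [memA]
      rintro ⟨⟨i, hi, hi'⟩ | ⟨j, hj⟩, _⟩
      · rcases hi' with h1 | ⟨_, h2⟩
        · have := D.hfin x i h1
          rw [← hi, D.hfin'] at this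
          simp at this
        · exact hL h2
      · have := D.ty_iter x j
        rw [← hj, D.hty x _ le_rfl] at this
        simp at this
    have e : PB = insert (M.F^[D.N x] (D.c0 x)) PA := by
      ext z
      rw [Finset.mem_insert, memA, memB]
      constructor
      · rintro ⟨⟨i, rfl, hi⟩ | ⟨j, rfl⟩, h2⟩
        · rcases Nat.lt_or_ge i (D.N x) with h1 | h1
          · exact Or.inr ⟨Or.inl ⟨i, rfl, Or.inl h1⟩, h2⟩
          · have : i = D.N x := by omega
            exact Or.inl (by rw [this])
        · rw [D.ty_iter] at h2; simp at h2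
      · rintro (rfl | ⟨h1, h2⟩)
        · exact ⟨Or.inl ⟨_, rfl, le_rfl⟩, D.hty x _ le_rfl⟩
        · exact ⟨D.SA_sub h1, h2⟩
    have e2 := congrArg Finset.card e
    rw [Finset.card_insert_of_notMem hN] at e2
    simp only [hL, false_iff]
    rw [Nat.even_iff]; omega

include D in
/-- the main consequence -/
theorem inP (Q : ∀ A B : Set (List Bool), LNEquivalent A B → PIsomorphic A B) : InP L := by
  obtain ⟨h, k, hh, hk, hkh, hhk, hfin⟩ := D.exists_iso Q
  have hh' : FP h := MP_0532f7_lc.PolyTime.fp hh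
  have hk' : FP k := MP_0532f7_lc.PolyTime.fp hk
  obtain ⟨q1, hq1⟩ := hh'.length
  obtain ⟨q2, hq2⟩ := hk'.length
  obtain ⟨J, hJ⟩ := exists_J (q1 + q2)
  obtain ⟨p', hp', hp⟩ := finite_patch (L := L) hfin (fun x => !D.par h k J x)
    (FPb.par D hh' hk' J).not (fun x hx => by
      have := D.flow hkh hhk hx (q1 + q2)
        (fun z => by rw [eval_add]; have := hq1 z; omega)
        (fun z => by rw [eval_add]; have := hq2 z; omega) J
        (fun j hj => hJ (D.c0 x) j hj)
      rw [this, Bool.not_eq_true'])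
  refine ⟨fun x => [p' x], FP.polyTime hp', fun x => ?_⟩
  rw [hp]
  simp

end Dec

end Pool.Agent.Work.MP_88f784_lc
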