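import Mathlib
import Pool.Agent.Work.MP_88f784_lc.Words

/-!
Reversible iteration of a length-preserving function (Bennett), with registers in a list.
-/

namespace Pool.Agent.Work.MP_88f784_lc

open Pool.Agent.Work.MP_0532f7_lc

section

variable (S : List Bool → List Bool)

/-- one operation: xor `S` of register `a` into register `b` -/
def opL (a b : ℕ) (R : List (List Bool)) : List (List Bool) :=
  if a = b then R else R.set b (xr (R.getD b []) (S (R.getD a [])))

/-- the program of level `k` from register `a` to register `b` -/
def runL : ℕ → ℕ → ℕ → List (List Bool) → List (List Bool)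
  | 0, a, b, R => opL S a b R
  | k + 1, a, b, R => runL k a (2 * k) (runL k (2 * k) b (runL k a (2 * k) R))

/-- all registers have length `m` -/
def Val (n m : ℕ) (R : List (List Bool)) : Prop := R.length = n ∧ ∀ r ∈ R, r.length = m

theorem Val.getD {n m : ℕ} {R : List (List Bool)} (h : Val n m R) {i : ℕ} (hi : i < n) :
    (R.getD i []).length = m := by
  rw [List.getD_eq_getElem?_getD, List.getElem?_eq_getElem (by rw [h.1]; exact hi)]
  exact h.2 _ (List.getElem_mem _)

theorem Val.set {n m : ℕ} {R : List (List Bool)} (h : Val n m R) {i : ℕ} {v : List Bool}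
    (hv : v.length = m) : Val n m (R.set i v) := by
  refine ⟨by rw [List.length_set]; exact h.1, fun r hr => ?_⟩
  rcases List.mem_or_eq_of_mem_set hr with h1 | h1
  · exact h.2 r h1
  · rw [h1]; exact hv

theorem getD_set_self {R : List (List Bool)} {i : ℕ} (h : i < R.length) (v : List Bool) :
    (R.set i v).getD i [] = v := by
  rw [List.getD_eq_getElem?_getD, List.getElem?_set_self h]; rfl

theorem getD_set_ne {R : List (List Bool)} {i j : ℕ} (h : i ≠ j) (v : List Bool) :
    (R.set i v).getD j [] = R.getD j [] := by
  rw [List.getD_eq_getElem?_getD, List.getD_eq_getElem?_getD, List.getElem?_set_ne h]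

theorem Val.opL {n m : ℕ} {R : List (List Bool)} (h : Val n m R) {a b : ℕ} (hb : b < n) :
    Val n m (opL S a b R) := by
  unfold MP_88f784_lc.opL
  split_ifs
  · exact h
  · exact h.set (by rw [xr_length]; exact h.getD hb)

theorem opL_opL {n m : ℕ} {R : List (List Bool)} (h : Val n m R) {a b : ℕ} (hb : b < n) :
    opL S a b (opL S a b R) = R := by
  unfold opL
  split_ifs with hab
  · rfl
  · rw [getD_set_self (by rw [h.1]; exact hb), getD_set_ne (Ne.symm hab), List.set_set, xr_xr]
    exact set_getD_self _ _ _

theorem Val.runL {n m : ℕ} (k : ℕ) : ∀ {R : List (List Bool)} (_ : Val n m R) {a b : ℕ}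
    (_ : b < n) (_ : 2 * k < n), Val n m (runL S k a b R) := by
  induction k with
  | zero => intro R h a b hb _; exact h.opL S hb
  | succ k ih =>
    intro R h a b hb hk
    exact ih (ih (ih h (by omega) (by omega)) hb (by omega)) (by omega) (by omega)

/-- the program of level `k` xors the `2^k`-th iterate into the target -/
theorem runL_eq (hS : ∀ r, (S r).length = r.length) {n m : ℕ} (k : ℕ) :
    ∀ {R : List (List Bool)} (_ : Val n m R) {a b : ℕ} (_ : a < n) (_ : b < n) (_ : a ≠ b)
    (_ : 2 * k ≤ a) (_ : 2 * k ≤ b) (_ : ∀ j, j < k → R.getD (2 * j) [] = List.replicate m false),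
    runL S k a b R = R.set b (xr (R.getD b []) (S^[2 ^ k] (R.getD a []))) := by
  have hSi : ∀ i r, (S^[i] r).length = r.length := by
    intro i
    induction i with
    | zero => intro r; rfl
    | succ i ih => intro r; rw [Function.iterate_succ_apply, ih, hS]
  induction k with
  | zero =>
    intro R h a b ha hb hab _ _ _
    unfold runL opL
    rw [if_neg hab]; rfl
  | succ k ih =>
    intro R h a b ha hb hab h1 h2 h3
    have hk : 2 * k < n := by omega
    obtain ⟨y, hy⟩ : ∃ y, y = S^[2 ^ k] (R.getD a []) := ⟨_, rfl⟩
    have hyl : y.length = m := by rw [hy, hSi]; exact h.getD ha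
    have h3k := h3 k (by omega)
    have e1 : runL S k a (2 * k) R = R.set (2 * k) y := by
      rw [ih h ha hk (by omega) (by omega) le_rfl (fun j hj => h3 j (by omega)), h3k, ← hy]
      congr 1
      rw [← hyl]; exact xr_zs y
    have v1 : Val n m (R.set (2 * k) y) := h.set hyl
    obtain ⟨w, hw⟩ : ∃ w, w = xr (R.getD b []) (S^[2 ^ (k + 1)] (R.getD a [])) := ⟨_, rfl⟩
    have hwl : w.length = m := by rw [hw, xr_length]; exact h.getD hb
    have e2 : runL S k (2 * k) b (R.set (2 * k) y) = (R.set (2 * k) y).set b w := by
      rw [ih v1 hk hb (by omega) le_rfl (by omega) (fun j hj => by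
        rw [getD_set_ne (by omega)]; exact h3 j (by omega)),
        getD_set_self (by rw [h.1]; exact hk), getD_set_ne (by omega)]
      have e : 2 ^ k + 2 ^ k = 2 ^ (k + 1) := by rw [pow_succ]; omega
      rw [hw, hy, ← Function.iterate_add_apply, e]
    have v2 : Val n m ((R.set (2 * k) y).set b w) := v1.set hwl
    have e3 : runL S k a (2 * k) ((R.set (2 * k) y).set b w) =
        ((R.set (2 * k) y).set b w).set (2 * k) (List.replicate m false) := by
      rw [ih v2 ha hk (by omega) (by omega) le_rfl (fun j hj => by
        rw [getD_set_ne (by omega), getD_set_ne (by omega)]; exact h3 j (by omega)),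
        getD_set_ne (by omega : b ≠ 2 * k), getD_set_self (by rw [h.1]; exact hk),
        getD_set_ne (by omega : b ≠ a), getD_set_ne (by omega : 2 * k ≠ a), ← hy, xr_self, hyl]
    show runL S k a (2 * k) (runL S k (2 * k) b (runL S k a (2 * k) R)) = _
    rw [e1, e2, e3, ← hw]
    apply List.ext_getElem
    · simp
    · intro i hi1 hi2
      rw [List.getElem_set, List.getElem_set, List.getElem_set, List.getElem_set]
      by_cases c1 : 2 * k = i
      · subst c1
        rw [if_pos rfl, if_neg (by omega)]
        rw [List.getD_eq_getElem?_getD, List.getElem?_eq_getElem (by rw [h.1]; exact hk)] at h3k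
        exact h3k.symm
      · rw [if_neg c1, if_neg c1]

end

end Pool.Agent.Work.MP_88f784_lc
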