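import Mathlib
import Pool.Agent.Work.MP_88f784_lc.Bennett
import Pool.Agent.Work.MP_88f784_lc.Maps

/-!
The reversible machine for the iteration of a length-preserving function, and its trajectories.
-/

namespace Pool.Agent.Work.MP_88f784_lc

open Pool.Agent.Work.MP_0532f7_lc Polynomial

/-- configuration with input `x`, counter `w` and registers `R` -/
def cf (x w R : List Bool) : List Bool := false :: pr x (pr w R)

/-- counter of a configuration -/
def cw (c : List Bool) : List Bool := fs (sn c.tail)

/-- registers of a configuration -/
def cr (c : List Bool) : List Bool := sn (sn c.tail)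

/-- input of a configuration -/
def cx (c : List Bool) : List Bool := fs c.tail

@[simp] theorem cw_cf (x w R : List Bool) : cw (cf x w R) = w := by simp [cw, cf]
@[simp] theorem cr_cf (x w R : List Bool) : cr (cf x w R) = R := by simp [cr, cf]
@[simp] theorem cx_cf (x w R : List Bool) : cx (cf x w R) = x := by simp [cx, cf]
@[simp] theorem ty_cf (x w R : List Bool) : ty (cf x w R) = false := rfl

theorem FP.cx : FP cx := FP.fsI.comp FP.tail
theorem FP.cw : FP cw := FP.fsI.comp (FP.snI.comp FP.tail)
theorem FP.cr : FP cr := FP.snI.comp (FP.snI.comp FP.tail)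

theorem FP.cf {f g h : List Bool → List Bool} (hf : FP f) (hg : FP g) (hh : FP h) :
    FP (fun x => cf (f x) (g x) (h x)) := (FP.cons false).comp (hf.pair (hg.pair hh))

/-- ones of the same length -/
def os (x : List Bool) : List Bool := List.replicate x.length true

theorem FP.os {f : List Bool → List Bool} (hf : FP f) : FP (fun x => os (f x)) := by
  obtain ⟨Q, hQ⟩ := hf.length
  have key : ∀ i, (fun z : List Bool => true :: z)^[i] [] = List.replicate i true := by
    intro i
    induction i with
    | zero => rfl
    | succ i ih => rw [Function.iterate_succ_apply', ih, List.replicate_succ]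
  refine (FP.iter (FP.cons true) hf FP.nil Q (fun x i hi => ?_)).congr (fun x => ?_)
  · rw [key, List.length_replicate]; exact hi.trans (hQ x)
  · rw [key]; rfl

section

variable (S : List Bool → List Bool)

/-- one operation on coded registers -/
def opS (w R : List Bool) : List Bool :=
  if lenEq (sel w w (false :: w)).1 (sel w w (false :: w)).2 = true then R else
  setS (sel w w (false :: w)).2
    (xr (nth (sel w w (false :: w)).2 R) (S (nth (sel w w (false :: w)).1 R))) R

/-- one operation on the list of registers -/
def opN (w : List Bool) (R : List (List Bool)) : List (List Bool) :=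
  opL S (selN w w.length (w.length + 1)).1 (selN w w.length (w.length + 1)).2 R

variable {S}

theorem FP.opS (hS : FP S) {f g : List Bool → List Bool} (hf : FP f) (hg : FP g) :
    FP (fun x => opS S (f x) (g x)) := by
  obtain ⟨h1, h2⟩ := FP.sel hf hf ((FP.cons false).comp hf)
  exact FP.ite (FPb.lenEq h1 h2) hg
    (FP.setSI h2 (FP.xr (FP.nthI h2 hg) (hS.comp (FP.nthI h1 hg))) hg)

theorem selN_bd (w : List Bool) : (selN w w.length (w.length + 1)).1 < w.length + 2 ∧
    (selN w w.length (w.length + 1)).2 < w.length + 2 := by
  have := selN_le w.length w w.length (w.length + 1) (w.length + 1) le_rfl (by omega) (by omega)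
    le_rfl
  omega

theorem opS_enc {m : ℕ} {w : List Bool} {R : List (List Bool)}
    (h : Val (w.length + 2) m R) : opS S w (encL R) = encL (opN S w R) := by
  have h1 := sel_len w.length w w (false :: w) le_rfl
  rw [List.length_cons] at h1
  have h2 := congrArg Prod.fst h1
  have h3 := congrArg Prod.snd h1
  dsimp only at h2 h3
  have h4 := selN_bd w
  unfold opS opN opL
  by_cases hab : (selN w w.length (w.length + 1)).1 = (selN w w.length (w.length + 1)).2
  · rw [if_pos hab, if_pos]
    rw [lenEq_iff, h2, h3, hab]
  · rw [if_neg hab, if_neg, setS_encL _ _ _ (by rw [h3, h.1]; exact h4.2), nth_encL, nth_encL,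
      h2, h3]
    rw [lenEq_iff, h2, h3]
    exact hab

/-- the forward map -/
def FF (S : List Bool → List Bool) (c : List Bool) : List Bool :=
  cf (cx c) (radv true (cw c)) (opS S (cw c) (cr c))

/-- the backward map -/
def BB (S : List Bool → List Bool) (c : List Bool) : List Bool :=
  cf (cx c) (radv false (cw c)) (opS S (radv false (cw c)) (cr c))

/-- the machine -/
def mach (hS : FP S) {α : List Bool → Bool} (hα : FPb α) : Mach where
  F := FF S
  B := BB S
  ini := fun c => decide (cw c = zs (cw c))
  fin := fun c => decide (cw c = os (cw c))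
  rej := fun c => !α (nth (false :: cw c) (cr c))
  hF := FP.cf FP.cx (FP.radv true FP.cw) (FP.opS hS FP.cw FP.cr)
  hB := FP.cf FP.cx (FP.radv false FP.cw) (FP.opS hS (FP.radv false FP.cw) FP.cr)
  hini := FPb.eq FP.cw (FP.zs FP.cw)
  hfin := FPb.eq FP.cw (FP.os FP.cw)
  hrej := (hα.comp (FP.nthI ((FP.cons false).comp FP.cw) FP.cr)).not

theorem FF_cf {m : ℕ} {x w : List Bool} {R : List (List Bool)} (h : Val (w.length + 2) m R) :
    FF S (cf x w (encL R)) = cf x (radv true w) (encL (opN S w R)) := by
  unfold FF
  rw [cx_cf, cw_cf, cr_cf, opS_enc h]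

theorem Val.opN {m : ℕ} {w : List Bool} {R : List (List Bool)} (h : Val (w.length + 2) m R) :
    Val (w.length + 2) m (opN S w R) := h.opL S (selN_bd w).2

theorem opN_opN {m : ℕ} {w : List Bool} {R : List (List Bool)} (h : Val (w.length + 2) m R) :
    opN S w (opN S w R) = R := opL_opL S h (selN_bd w).2

theorem BB_FF {m : ℕ} {x w : List Bool} {R : List (List Bool)} (h : Val (w.length + 2) m R)
    (hw : w ≠ List.replicate w.length true) :
    BB S (FF S (cf x w (encL R))) = cf x w (encL R) := by
  rw [FF_cf h]
  unfold BB
  rw [cx_cf, cw_cf, cr_cf]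
  have e : radv false (radv true w) = w := radv_radv true w hw
  rw [e, opS_enc h.opN, opN_opN h]

theorem encL_len {n m : ℕ} {R : List (List Bool)} (h : Val n m R) :
    (encL R).length = n * (2 * m + 1) := by
  obtain ⟨h1, h2⟩ := h
  induction R generalizing n with
  | nil => simp at h1; subst h1; simp
  | cons r R ih =>
    simp only [List.length_cons] at h1
    subst h1
    rw [encL_cons, pr_length, ih rfl (fun r hr => h2 r (List.mem_cons_of_mem _ hr)),
      h2 r (List.mem_cons_self)]
    ring

theorem cf_len {n m : ℕ} {x w : List Bool} {R : List (List Bool)} (h : Val n m R) :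
    (cf x w (encL R)).length = 1 + (2 * x.length + 1 + (2 * w.length + 1 + n * (2 * m + 1))) := by
  unfold cf
  rw [List.length_cons, pr_length, pr_length, encL_len h]
  omega

/-- `n` steps lead from `c` to `c'`, with no final configuration before `c'` -/
def Path (F : List Bool → List Bool) (fin : List Bool → Bool) (n : ℕ) (c c' : List Bool) : Prop :=
  F^[n] c = c' ∧ ∀ i, i < n → fin (F^[i] c) = false

theorem Path.trans {F : List Bool → List Bool} {fin : List Bool → Bool} {n n' : ℕ}
    {c c' c'' : List Bool} (h : Path F fin n c c') (h' : Path F fin n' c' c'') :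
    Path F fin (n' + n) c c'' := by
  refine ⟨by rw [Function.iterate_add_apply, h.1, h'.1], fun i hi => ?_⟩
  rcases Nat.lt_or_ge i n with h1 | h1
  · exact h.2 i h1
  · obtain ⟨j, rfl⟩ : ∃ j, i = j + n := ⟨i - n, by omega⟩
    rw [Function.iterate_add_apply, h.1]
    exact h'.2 j (by omega)

theorem Path.zero {F : List Bool → List Bool} {fin : List Bool → Bool} (c : List Bool) :
    Path F fin 0 c c := ⟨rfl, fun i hi => absurd hi (by omega)⟩

theorem Path.one {F : List Bool → List Bool} {fin : List Bool → Bool} {c : List Bool}
    (h : fin c = false) : Path F fin 1 c (F c) :=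
  ⟨rfl, fun i hi => by
    have : i = 0 := by omega
    subst this; exact h⟩

/-- the prefix `u` of a counter selects the registers `σ` (`none`: no operation) -/
def Sel (K k : ℕ) (u : List Bool) : Option (ℕ × ℕ) → Prop
  | some ab => ∀ v : List Bool, v.length = 2 * k →
      selN (u ++ v) (2 * K) (2 * K + 1) = selN v ab.1 ab.2
  | none => ∀ v : List Bool, v.length = 2 * k →
      (selN (u ++ v) (2 * K) (2 * K + 1)).1 = (selN (u ++ v) (2 * K) (2 * K + 1)).2

/-- the program of level `k` for a selection -/
def runO (S : List Bool → List Bool) (k : ℕ) : Option (ℕ × ℕ) → List (List Bool) →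
    List (List Bool)
  | some ab, R => runL S k ab.1 ab.2 R
  | none, R => R

theorem selN_cons (p q : Bool) (w : List Bool) (a b : ℕ) : selN (p :: q :: w) a b =
    if p && q then (b, b) else if q then selN w w.length b else selN w a w.length := by
  rw [selN]

theorem Sel.next_none {K k : ℕ} {u : List Bool} (h : Sel K (k + 1) u none) (p q : Bool) :
    Sel K k (u ++ [p, q]) none := by
  intro v hv
  have := h (p :: q :: v) (by simp [hv]; omega)
  simpa using this

theorem Sel.next_tt {K k : ℕ} {u : List Bool} {a b : ℕ} (h : Sel K (k + 1) u (some (a, b))) :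
    Sel K k (u ++ [true, true]) none := by
  intro v hv
  have := h (true :: true :: v) (by simp [hv]; omega)
  have e : (u ++ [true, true]) ++ v = u ++ (true :: true :: v) := by simp
  rw [e, this]; rfl

theorem Sel.next_ft {K k : ℕ} {u : List Bool} {a b : ℕ} (h : Sel K (k + 1) u (some (a, b))) :
    Sel K k (u ++ [false, true]) (some (2 * k, b)) := by
  intro v hv
  have := h (false :: true :: v) (by simp [hv]; omega)
  have e : (u ++ [false, true]) ++ v = u ++ (false :: true :: v) := by simp
  rw [e, this, selN_cons]
  simp only [Bool.false_and, Bool.false_eq_true, if_false, if_true, hv]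

theorem Sel.next_f {K k : ℕ} {u : List Bool} {a b : ℕ} (h : Sel K (k + 1) u (some (a, b)))
    (p : Bool) : Sel K k (u ++ [p, false]) (some (a, 2 * k)) := by
  intro v hv
  have := h (p :: false :: v) (by simp [hv]; omega)
  have e : (u ++ [p, false]) ++ v = u ++ (p :: false :: v) := by simp
  rw [e, this, selN_cons]
  simp only [Bool.and_false, Bool.false_eq_true, if_false, hv]

variable (hS : FP S) {α : List Bool → Bool} (hα : FPb α)

theorem fin_cf (x w R : List Bool) : (mach hS hα).fin (cf x w R) = true ↔
    w = List.replicate w.length true := by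
  show decide (cw (cf x w R) = os (cw (cf x w R))) = true ↔ _
  rw [cw_cf, decide_eq_true_eq]; rfl

theorem ini_cf (x w R : List Bool) : (mach hS hα).ini (cf x w R) = true ↔
    w = List.replicate w.length false := by
  show decide (cw (cf x w R) = zs (cw (cf x w R))) = true ↔ _
  rw [cw_cf, decide_eq_true_eq]; rfl

theorem not_ones {u v : List Bool} (h : false ∈ u) :
    u ++ v ≠ List.replicate (u ++ v).length true := by
  intro h'
  have h1 : false ∈ u ++ v := List.mem_append_left _ h
  rw [h'] at h1
  have := List.eq_of_mem_replicate h1
  simp at this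

theorem reach (x : List Bool) (K m : ℕ) (k : ℕ) : ∀ (u : List Bool) (σ : Option (ℕ × ℕ))
    (R : List (List Bool)), u.length + 2 * k = 2 * K → Sel K k u σ →
    (∀ ab, σ = some ab → ab.2 < 2 * K + 2) → Val (2 * K + 2) m R →
    ∃ n R', Path (FF S) (mach hS hα).fin n (cf x (u ++ List.replicate (2 * k) false) (encL R))
      (cf x (u ++ List.replicate (2 * k) true) (encL R')) ∧ Val (2 * K + 2) m R' ∧
      opN S (u ++ List.replicate (2 * k) true) R' = runO S k σ R ∧
      Val (2 * K + 2) m (runO S k σ R) := by
  induction k with
  | zero =>
    intro u σ R hu hs hb hv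
    refine ⟨0, R, Path.zero _, hv, ?_, ?_⟩
    · have hl : u.length = 2 * K := by omega
      simp only [Nat.mul_zero, List.replicate_zero, List.append_nil]
      unfold opN
      rw [hl]
      cases σ with
      | none =>
        have := hs [] rfl
        rw [List.append_nil] at this
        unfold opL runO
        rw [if_pos this]
      | some ab =>
        have := hs [] rfl
        rw [List.append_nil] at this
        rw [this]; rfl
    · cases σ with
      | none => exact hv
      | some ab => exact hv.opL S (hb ab rfl)
  | succ k ih =>
    intro u σ R hu hs hb hv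
    have phase : ∀ (u' next : List Bool) (σ' : Option (ℕ × ℕ)) (R : List (List Bool)),
        u'.length + 2 * k = 2 * K → Sel K k u' σ' → (∀ ab, σ' = some ab → ab.2 < 2 * K + 2) →
        Val (2 * K + 2) m R → false ∈ u' →
        radv true (u' ++ List.replicate (2 * k) true) = next ++ List.replicate (2 * k) false →
        (∃ n, Path (FF S) (mach hS hα).fin n (cf x (u' ++ List.replicate (2 * k) false) (encL R))
          (cf x (next ++ List.replicate (2 * k) false) (encL (runO S k σ' R)))) ∧
          Val (2 * K + 2) m (runO S k σ' R) := by
      intro u' next σ' R hu' hs' hb' hv' hf hn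
      obtain ⟨n, R', h1, h2, h3, h4⟩ := ih u' σ' R hu' hs' hb' hv'
      refine ⟨⟨1 + n, ?_⟩, h4⟩
      have hlen : (u' ++ List.replicate (2 * k) true).length = 2 * K := by simp; omega
      have h5 : (mach hS hα).fin (cf x (u' ++ List.replicate (2 * k) true) (encL R')) = false := by
        rw [Bool.eq_false_iff, Ne, fin_cf]
        exact not_ones hf
      have h6 := h1.trans (Path.one h5)
      rw [FF_cf (m := m) (by rw [hlen]; exact h2), hn, h3] at h6
      exact h6
    have e0 : u ++ List.replicate (2 * (k + 1)) false =
        (u ++ [false, false]) ++ List.replicate (2 * k) false := by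
      rw [show 2 * (k + 1) = 2 * k + 1 + 1 from by ring, List.replicate_succ, List.replicate_succ]
      simp
    have e4 : u ++ List.replicate (2 * (k + 1)) true =
        (u ++ [true, true]) ++ List.replicate (2 * k) true := by
      rw [show 2 * (k + 1) = 2 * k + 1 + 1 from by ring, List.replicate_succ, List.replicate_succ]
      simp
    have r1 : radv true ((u ++ [false, false]) ++ List.replicate (2 * k) true) =
        (u ++ [false, true]) ++ List.replicate (2 * k) false := by
      have := radv_rep true (u ++ [false]) (2 * k)
      simpa using this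
    have r2 : radv true ((u ++ [false, true]) ++ List.replicate (2 * k) true) =
        (u ++ [true, false]) ++ List.replicate (2 * k) false := by
      have := radv_rep true u (2 * k + 1)
      rw [List.replicate_succ, List.replicate_succ] at this
      simpa using this
    have r3 : radv true ((u ++ [true, false]) ++ List.replicate (2 * k) true) =
        (u ++ [true, true]) ++ List.replicate (2 * k) false := by
      have := radv_rep true (u ++ [true]) (2 * k)
      simpa using this
    have hl : ∀ p q : Bool, (u ++ [p, q]).length + 2 * k = 2 * K := by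
      intro p q; simp; omega
    rw [e0, e4]
    cases σ with
    | none =>
      obtain ⟨⟨n1, p1⟩, v1⟩ := phase _ _ none R (hl _ _) (hs.next_none false false)
        (fun ab h => by simp at h) hv (by simp) r1
      obtain ⟨⟨n2, p2⟩, v2⟩ := phase _ _ none R (hl _ _) (hs.next_none false true)
        (fun ab h => by simp at h) hv (by simp) r2
      obtain ⟨⟨n3, p3⟩, v3⟩ := phase _ _ none R (hl _ _) (hs.next_none true false)
        (fun ab h => by simp at h) hv (by simp) r3
      obtain ⟨n4, R', p4, v4, q4, w4⟩ := ih _ none R (hl _ _) (hs.next_none true true)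
        (fun ab h => by simp at h) hv
      exact ⟨_, R', ((p1.trans p2).trans p3).trans p4, v4, q4, w4⟩
    | some ab =>
      obtain ⟨a, b⟩ := ab
      have hb' := hb (a, b) rfl
      dsimp only at hb'
      have hk : 2 * k < 2 * K + 2 := by omega
      obtain ⟨⟨n1, p1⟩, v1⟩ := phase _ _ (some (a, 2 * k)) R (hl _ _) (hs.next_f false)
        (fun ab h => by simp only [Option.some.injEq] at h; subst h; exact hk) hv (by simp) r1
      obtain ⟨⟨n2, p2⟩, v2⟩ := phase _ _ (some (2 * k, b)) _ (hl _ _) hs.next_ft
        (fun ab h => by simp only [Option.some.injEq] at h; subst h; exact hb') v1 (by simp) r2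
      obtain ⟨⟨n3, p3⟩, v3⟩ := phase _ _ (some (a, 2 * k)) _ (hl _ _) (hs.next_f true)
        (fun ab h => by simp only [Option.some.injEq] at h; subst h; exact hk) v2 (by simp) r3
      obtain ⟨n4, R', p4, v4, q4, w4⟩ := ih _ none _ (hl _ _) hs.next_tt
        (fun ab h => by simp at h) v3
      exact ⟨_, R', ((p1.trans p2).trans p3).trans p4, v4, q4, w4⟩

/-- `i`-th configuration is well-formed -/
theorem inv_iter {K m : ℕ} {x w : List Bool} {R : List (List Bool)} (hw : w.length = 2 * K)
    (hR : Val (2 * K + 2) m R) (i : ℕ) : ∃ w' R', w'.length = 2 * K ∧ Val (2 * K + 2) m R' ∧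
      (FF S)^[i] (cf x w (encL R)) = cf x w' (encL R') := by
  induction i with
  | zero => exact ⟨w, R, hw, hR, rfl⟩
  | succ i ih =>
    obtain ⟨w', R', h1, h2, h3⟩ := ih
    have h2' : Val (w'.length + 2) m R' := by rw [h1]; exact h2
    refine ⟨radv true w', opN S w' R', by rw [radv_length, h1], ?_, ?_⟩
    · have := h2'.opN (S := S)
      rwa [h1] at this
    · rw [Function.iterate_succ_apply', h3, FF_cf h2']

/-- the initial registers -/
def regs0 (m K : ℕ) (r : List Bool) : List (List Bool) :=
  List.replicate (2 * K) (List.replicate m false) ++ [r, List.replicate m false]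

theorem regs0_val {m K : ℕ} {r : List Bool} (hr : r.length = m) :
    Val (2 * K + 2) m (regs0 m K r) := by
  refine ⟨by simp [regs0], fun s hs => ?_⟩
  unfold regs0 at hs
  rcases List.mem_append.mp hs with h | h
  · rw [List.eq_of_mem_replicate h, List.length_replicate]
  · simp only [List.mem_cons, List.not_mem_nil, or_false] at h
    rcases h with h | h
    · rw [h, hr]
    · rw [h, List.length_replicate]

theorem iter_pr (p : List Bool) (n : ℕ) (T : List (List Bool)) :
    (pr p)^[n] (encL T) = encL (List.replicate n p ++ T) := by
  induction n with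
  | zero => rfl
  | succ n ih =>
    rw [Function.iterate_succ_apply', ih, List.replicate_succ, List.cons_append, encL_cons]

end

/-- the iteration of a length-preserving function is decided by a reversible machine -/
theorem dec_iter {L : Set (List Bool)} {S init k : List Bool → List Bool} {α : List Bool → Bool}
    (hS : FP S) (hi : FP init) (hk : FP k) (hα : FPb α) (hlen : ∀ r, (S r).length = r.length)
    (hil : ∀ x, (init x).length = (k x).length) (hpos : ∀ x, 0 < (k x).length)
    (hL : ∀ x, x ∈ L ↔ α (S^[2 ^ (k x).length] (init x)) = true) :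
    Nonempty (Dec (mach hS hα) L) := by
  obtain ⟨Q, hQ⟩ := hk.length
  -- the initial configuration
  have hreg : FP (fun x => encL (regs0 (k x).length (k x).length (init x))) := by
    have h1 : FP (fun x => (pr (zs (k x)))^[(k x ++ k x).length]
        (pr (init x) (pr (zs (k x)) []))) := by
      refine FP.iterc (step := pr) (FP.pair FP.fsI FP.snI) (FP.zs hk) (hk.app hk)
        (hi.pair ((FP.zs hk).pair FP.nil)) ((2 * Q + 2) * (2 * Q + 1)) (fun x i hx => ?_)
      have e : pr (init x) (pr (zs (k x)) []) = encL [init x, zs (k x)] := rfl
      rw [e, iter_pr]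
      have hv : Val (i + 2) (k x).length (List.replicate i (zs (k x)) ++ [init x, zs (k x)]) := by
        refine ⟨by simp, fun s hs => ?_⟩
        rcases List.mem_append.mp hs with h | h
        · rw [List.eq_of_mem_replicate h, zs_length]
        · simp only [List.mem_cons, List.not_mem_nil, or_false] at h
          rcases h with h | h
          · rw [h, hil]
          · rw [h, zs_length]
      rw [encL_len hv]
      have h2 := hQ x
      rw [List.length_append] at hx
      simp only [eval_mul, eval_add, eval_one, eval_ofNat]
      exact Nat.mul_le_mul (by omega) (by omega)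
    refine h1.congr (fun x => ?_)
    have e : pr (init x) (pr (zs (k x)) []) = encL [init x, zs (k x)] := rfl
    rw [e, iter_pr, List.length_append, ← two_mul]
    rfl
  have hc0 : FP (fun x => cf x (zs (k x ++ k x))
      (encL (regs0 (k x).length (k x).length (init x)))) :=
    FP.cf FP.id (FP.zs (hk.app hk)) hreg
  have hzs : ∀ x, zs (k x ++ k x) = List.replicate (2 * (k x).length) false := by
    intro x; unfold zs; rw [List.length_append, ← two_mul]
  -- the run
  have run : ∀ x, ∃ n R', Path (FF S) (mach hS hα).fin n
      (cf x (List.replicate (2 * (k x).length) false)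
        (encL (regs0 (k x).length (k x).length (init x))))
      (cf x (List.replicate (2 * (k x).length) true) (encL R')) ∧
      R'.getD (2 * (k x).length + 1) [] = S^[2 ^ (k x).length] (init x) := by
    intro x
    obtain ⟨K, hK⟩ : ∃ K, K = (k x).length := ⟨_, rfl⟩
    have hv : Val (2 * K + 2) K (regs0 K K (init x)) := regs0_val (by rw [hil, hK])
    obtain ⟨n, R', h1, h2, h3, h4⟩ := reach hS hα x K K K [] (some (2 * K, 2 * K + 1))
      (regs0 K K (init x)) (by simp) (fun v _ => rfl)
      (fun ab h => by simp only [Option.some.injEq] at h; subst h; show 2 * K + 1 < _; omega) hv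
    rw [List.nil_append, List.nil_append] at h1
    refine ⟨n, R', by rw [← hK]; exact h1, ?_⟩
    -- the last operation is void
    have h5 : opN S ([] ++ List.replicate (2 * K) true) R' = R' := by
      obtain ⟨K', hK'⟩ : ∃ K', 2 * K = K' + 1 + 1 := ⟨2 * K - 2, by have := hpos x; omega⟩
      rw [List.nil_append, hK', List.replicate_succ, List.replicate_succ]
      unfold opN opL selN
      simp
    rw [h5] at h3
    rw [h3]
    show (runL S K (2 * K) (2 * K + 1) (regs0 K K (init x))).getD _ [] = _
    have hg1 : (regs0 K K (init x)).getD (2 * K) [] = init x := by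
      unfold regs0
      rw [List.getD_eq_getElem?_getD, List.getElem?_append_right (by simp)]
      simp
    have hg2 : (regs0 K K (init x)).getD (2 * K + 1) [] = List.replicate K false := by
      unfold regs0
      rw [List.getD_eq_getElem?_getD, List.getElem?_append_right (by simp)]
      simp
    rw [runL_eq S hlen K hv (by omega) (by omega) (by omega) le_rfl (by omega) (fun j hj => by
      unfold regs0
      rw [List.getD_eq_getElem?_getD, List.getElem?_append_left (by simp; omega),
        List.getElem?_replicate, if_pos (by omega)]
      rfl), ← hK, getD_set_self (by rw [hv.1]; omega), hg1, hg2]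
    have hSi : ∀ i r, (S^[i] r).length = r.length := by
      intro i
      induction i with
      | zero => intro r; rfl
      | succ i ih => intro r; rw [Function.iterate_succ_apply, ih, hlen]
    have hl : (S^[2 ^ K] (init x)).length = K := by rw [hSi, hil, hK]
    have := xr_zs (S^[2 ^ K] (init x))
    rwa [hl] at this
  choose N R' hpath hres using run
  have hinv : ∀ x i, ∃ w' R'', w'.length = 2 * (k x).length ∧
      Val (2 * (k x).length + 2) (k x).length R'' ∧
      (FF S)^[i] (cf x (zs (k x ++ k x)) (encL (regs0 (k x).length (k x).length (init x)))) =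
        cf x w' (encL R'') := fun x i =>
    inv_iter (by rw [zs_length, List.length_append]; omega) (regs0_val (hil x)) i
  have hfin : ∀ x i, i < N x → (mach hS hα).fin
      ((FF S)^[i] (cf x (zs (k x ++ k x))
        (encL (regs0 (k x).length (k x).length (init x))))) = false := by
    intro x i hi; rw [hzs]; exact (hpath x).2 i hi
  refine ⟨{
    c0 := fun x => cf x (zs (k x ++ k x)) (encL (regs0 (k x).length (k x).length (init x)))
    hc0 := hc0
    key := cx
    N := N
    hN := ?_
    hini := ?_
    hini' := ?_
    hfin := hfin
    hfin' := ?_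
    hty := ?_
    hB := ?_
    hlen := ?_
    hkey := ?_
    hL := ?_ }⟩
  · intro x
    by_contra h0
    have h0 : N x = 0 := by omega
    have h1 := (hpath x).1
    rw [h0] at h1
    have h2 := congrArg cw h1
    rw [Function.iterate_zero, id, cw_cf, cw_cf] at h2
    have h3 : 0 < 2 * (k x).length := by have := hpos x; omega
    obtain ⟨l, hl⟩ : ∃ l, 2 * (k x).length = l + 1 := ⟨2 * (k x).length - 1, by omega⟩
    rw [hl, List.replicate_succ, List.replicate_succ] at h2
    exact absurd (List.cons.inj h2).1 (by simp)
  · intro x
    rw [ini_cf, zs_length]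
    rfl
  · intro x i hi0 hi
    obtain ⟨i, rfl⟩ : ∃ i', i = i' + 1 := ⟨i - 1, by omega⟩
    obtain ⟨w', R'', h1, h2, h3⟩ := hinv x i
    have h4 := hfin x i (by omega)
    rw [h3] at h4
    have h5 : w' ≠ List.replicate w'.length true := by
      intro h
      rw [← fin_cf hS hα x w' (encL R''), h4] at h
      simp at h
    show (mach hS hα).ini ((FF S)^[i + 1] _) = false
    rw [Function.iterate_succ_apply', h3, FF_cf (m := (k x).length) (by rw [h1]; exact h2),
      Bool.eq_false_iff, Ne, ini_cf, radv_length]
    exact radv_ne true w' h5
  · intro x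
    show (mach hS hα).fin ((FF S)^[N x] (cf x (zs (k x ++ k x)) _)) = true
    rw [hzs, (hpath x).1, fin_cf, List.length_replicate]
  · intro x i _
    obtain ⟨w', R'', _, _, h3⟩ := hinv x i
    show ty ((FF S)^[i] _) = false
    rw [h3, ty_cf]
  · intro x i hi
    obtain ⟨w', R'', h1, h2, h3⟩ := hinv x i
    have h4 := hfin x i hi
    rw [h3] at h4
    have h5 : w' ≠ List.replicate w'.length true := by
      intro h
      rw [← fin_cf hS hα x w' (encL R''), h4] at h
      simp at h
    show BB S ((FF S)^[i + 1] _) = (FF S)^[i] _
    rw [Function.iterate_succ_apply', h3]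
    exact BB_FF (m := (k x).length) (by rw [h1]; exact h2) h5
  · intro x i _
    obtain ⟨w', R'', h1, h2, h3⟩ := hinv x i
    show ((FF S)^[i] _).length = _
    rw [h3, cf_len h2, cf_len (regs0_val (hil x)), h1, zs_length, List.length_append]
    omega
  · intro x i _
    obtain ⟨w', R'', _, _, h3⟩ := hinv x i
    show cx ((FF S)^[i] _) = x
    rw [h3, cx_cf]
  · intro x
    show x ∈ L ↔ (!α (nth (false :: cw ((FF S)^[N x] (cf x (zs (k x ++ k x)) _)))
      (cr ((FF S)^[N x] (cf x (zs (k x ++ k x)) _))))) = false
    rw [hzs, (hpath x).1, cw_cf, cr_cf, nth_encL, List.length_cons, List.length_replicate,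
      hres, hL]
    simp

end Pool.Agent.Work.MP_88f784_lc
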