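import Mathlib
import Pool.Agent.Work.MP_88f784_lc.Flow
import Pool.Agent.Work.MP_88f784_lc.Rev
import Pool.Agent.Work.MP_88f784_lc.Space

/-!
If equivalence via 1-1, length-nondecreasing, p-invertible reductions implies p-isomorphism, then
PSPACE is contained in P.
-/

namespace Pool.Agent.Work.MP_88f784_lc

theorem pspace_of_iso (Q : ∀ A B : Set (List Bool), LNEquivalent A B → PIsomorphic A B)
    (L : Set (List Bool)) (hL : InPSPACE L) : InP L := by
  obtain ⟨S, init, k, α, hS, hi, hk, hα, h1, h2, h3, h4⟩ := pspace_iter hL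
  obtain ⟨D⟩ := dec_iter hS hi hk hα h1 h2 h3 h4
  exact D.inP Q

end Pool.Agent.Work.MP_88f784_lc
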